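import Pool.Agent.Results.MP_378045_ag.NotMixedDet

/-!
# A quadratic form in seven variables
-/

set_option autoImplicit false

open MvPolynomial Finset
open scoped ComplexOrder

namespace Pool.Agent.Y108.QE.Seven

open Pool.Agent.Results.MP_378045_ag.NotMixedDet (eta pencil IsRealStable eta_map eta_two)

/-- The off-diagonal coefficients `(k - l)^2 + 1`. -/
def wt (k l : Fin 7) : ℝ := (((k : ℕ) : ℝ) - ((l : ℕ) : ℝ)) ^ 2 + 1

/-- The quadratic form `∑_{k<l} ((k-l)^2+1) z_k z_l` in seven variables. -/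
noncomputable def quad : MvPolynomial (Fin 7) ℝ :=
  ∑ k, ∑ l, if k < l then C (wt k l) * X k * X l else 0

lemma quad_homogeneous : quad.IsHomogeneous 2 := by
  apply MvPolynomial.IsHomogeneous.sum
  intro k _
  apply MvPolynomial.IsHomogeneous.sum
  intro l _
  split_ifs
  · have h1 := (MvPolynomial.isHomogeneous_C (Fin 7) (wt k l)).mul
      (MvPolynomial.isHomogeneous_X ℝ k)
    have h2 := h1.mul (MvPolynomial.isHomogeneous_X ℝ l)
    simpa using h2
  · exact MvPolynomial.isHomogeneous_zero _ _ _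

lemma aeval_quad (z : Fin 7 → ℂ) :
    aeval z quad = ∑ k, ∑ l, if k < l then ((wt k l : ℝ) : ℂ) * z k * z l else 0 := by
  unfold quad
  rw [map_sum]
  apply Finset.sum_congr rfl
  intro k _
  rw [map_sum]
  apply Finset.sum_congr rfl
  intro l _
  split_ifs
  · simp
  · simp

/-- The real quadratic form. -/
noncomputable def Q (u : Fin 7 → ℝ) : ℝ := ∑ k, ∑ l, if k < l then wt k l * u k * u l else 0

/-- Its polar form. -/
noncomputable def B (u v : Fin 7 → ℝ) : ℝ :=
  ∑ k, ∑ l, if k < l then wt k l * (u k * v l + v k * u l) else 0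

lemma aeval_quad' (z : Fin 7 → ℂ) :
    aeval z quad = ((Q (fun k => (z k).re) - Q (fun k => (z k).im) : ℝ) : ℂ)
      + ((B (fun k => (z k).re) (fun k => (z k).im) : ℝ) : ℂ) * Complex.I := by
  rw [aeval_quad]
  unfold Q B
  rw [← Finset.sum_sub_distrib]
  push_cast
  rw [Finset.sum_mul, ← Finset.sum_add_distrib]
  apply Finset.sum_congr rfl
  intro k _
  rw [← Finset.sum_sub_distrib, Finset.sum_mul, ← Finset.sum_add_distrib]
  apply Finset.sum_congr rfl
  intro l _
  split_ifs
  · apply Complex.ext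
    · simp only [Complex.mul_re, Complex.ofReal_re, Complex.ofReal_im, Complex.sub_re,
        Complex.add_re, Complex.mul_im, Complex.I_re, Complex.I_im]
      ring
    · simp only [Complex.mul_re, Complex.ofReal_re, Complex.ofReal_im, Complex.sub_im,
        Complex.add_im, Complex.add_re, Complex.mul_im, Complex.I_re, Complex.I_im]
      ring
  · simp

lemma Q_expand (x y : Fin 7 → ℝ) (t : ℝ) :
    Q (fun k => x k - t * y k) = Q x - t * B x y + t ^ 2 * Q y := by
  unfold Q B
  rw [Finset.mul_sum, Finset.mul_sum, ← Finset.sum_sub_distrib, ← Finset.sum_add_distrib]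
  apply Finset.sum_congr rfl
  intro k _
  rw [Finset.mul_sum, Finset.mul_sum, ← Finset.sum_sub_distrib, ← Finset.sum_add_distrib]
  apply Finset.sum_congr rfl
  intro l _
  split_ifs
  · ring
  · ring

lemma Q_formula (u : Fin 7 → ℝ) :
    Q u = (∑ k : Fin 7, ((k : ℕ) : ℝ) ^ 2 * u k) * (∑ k, u k)
      - (∑ k : Fin 7, ((k : ℕ) : ℝ) * u k) ^ 2
      + (∑ k, u k) ^ 2 / 2 - (∑ k, (u k) ^ 2) / 2 := by
  unfold Q wt
  simp only [Fin.sum_univ_succ, Fin.sum_univ_zero]
  simp [Fin.lt_def]
  ring

lemma Q_pos (y : Fin 7 → ℝ) (hy : ∀ k, 0 < y k) : 0 < Q y := by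
  unfold Q
  apply Finset.sum_pos'
  · intro k _
    apply Finset.sum_nonneg
    intro l _
    split_ifs
    · have := hy k
      have := hy l
      unfold wt
      positivity
    · exact le_refl _
  · refine ⟨0, Finset.mem_univ _, ?_⟩
    apply Finset.sum_pos'
    · intro l _
      split_ifs
      · have := hy 0
        have := hy l
        unfold wt
        positivity
      · exact le_refl _
    · refine ⟨1, Finset.mem_univ _, ?_⟩
      have := hy 0
      have := hy 1
      rw [if_pos (by decide)]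
      unfold wt
      positivity

lemma quad_stable : IsRealStable quad := by
  constructor
  · intro h
    have h1 : aeval (fun _ : Fin 7 => (1 : ℂ)) quad = 0 := by rw [h]; simp
    rw [aeval_quad'] at h1
    have h2 := congrArg Complex.re h1
    simp at h2
    have h3 : 0 < Q (fun _ => 1) := Q_pos _ (fun _ => one_pos)
    have h4 : Q (fun _ => 0) = 0 := by simp [Q]
    rw [h4] at h2
    linarith
  · intro z hz h
    rw [aeval_quad'] at h
    set x : Fin 7 → ℝ := fun k => (z k).re
    set y : Fin 7 → ℝ := fun k => (z k).im with hy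
    have h1 : Q x - Q y = 0 := by
      have := congrArg Complex.re h
      simpa using this
    have h2 : B x y = 0 := by
      have := congrArg Complex.im h
      simpa using this
    have hyp : ∀ k, 0 < y k := hz
    have hQy := Q_pos y hyp
    have hS : 0 < ∑ k, y k := Finset.sum_pos (fun k _ => hyp k) ⟨0, Finset.mem_univ _⟩
    set t : ℝ := (∑ k, x k) / (∑ k, y k) with ht
    have h3 := Q_expand x y t
    have h4 := Q_formula (fun k => x k - t * y k)
    have h5 : ∑ k, (x k - t * y k) = 0 := by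
      rw [Finset.sum_sub_distrib, ← Finset.mul_sum, ht]
      field_simp
      ring
    rw [h5] at h4
    have h6 : 0 ≤ ∑ k, (x k - t * y k) ^ 2 := Finset.sum_nonneg (fun k _ => sq_nonneg _)
    have h7 := sq_nonneg (∑ k : Fin 7, ((k : ℕ) : ℝ) * (x k - t * y k))
    have h8 : 0 ≤ t ^ 2 * Q y := by positivity
    rw [h2] at h3
    nlinarith

/-- Value of the off-diagonal sum at `e_a + e_b`. -/
lemma sum_at_pair (a b : Fin 7) (hab : a < b) :
    (∑ k, ∑ l, if k < l then ((wt k l : ℝ) : ℂ) * (Pi.single a 1 + Pi.single b 1 : Fin 7 → ℂ) k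
      * (Pi.single a 1 + Pi.single b 1 : Fin 7 → ℂ) l else 0) = ((wt a b : ℝ) : ℂ) := by
  have hba : ¬ b < a := not_lt.mpr hab.le
  have hne : a ≠ b := ne_of_lt hab
  rw [Finset.sum_eq_single a]
  · rw [Finset.sum_eq_single b]
    · simp [hab, hne]
    · intro l _ hl
      by_cases h : a < l
      · have : l ≠ a := ne_of_gt h
        simp [h, Pi.single_apply, this, hl]
      · simp [h]
    · intro h; exact absurd (Finset.mem_univ _) h
  · intro k _ hk
    by_cases hkb : k = b
    · subst hkb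
      apply Finset.sum_eq_zero
      intro l _
      by_cases h : k < l
      · have h1 : l ≠ k := ne_of_gt h
        have h2 : l ≠ a := ne_of_gt (hab.trans h)
        simp [h, Pi.single_apply, h1, h2]
      · simp [h]
    · apply Finset.sum_eq_zero
      intro l _
      simp [Pi.single_apply, hk, hkb]
  · intro h; exact absurd (Finset.mem_univ _) h

lemma sum_at_single (a : Fin 7) :
    (∑ k, ∑ l, if k < l then ((wt k l : ℝ) : ℂ) * (Pi.single a 1 : Fin 7 → ℂ) k
      * (Pi.single a 1 : Fin 7 → ℂ) l else 0) = 0 := by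
  apply Finset.sum_eq_zero
  intro k _
  apply Finset.sum_eq_zero
  intro l _
  by_cases h : k < l
  · by_cases hk : k = a
    · subst hk
      have : l ≠ k := ne_of_gt h
      simp [h, Pi.single_apply, this]
    · simp [Pi.single_apply, hk]
  · simp [h]

lemma wt_symm (k l : Fin 7) : wt k l = wt l k := by
  unfold wt; ring

/-- The numerical data extracted from a representation. -/
structure Data (m : ℕ) where
  a : Fin m → Fin 7 → ℝ
  b : Fin m → Fin 7 → ℝ
  c : Fin m → Fin 7 → ℂ
  ha : ∀ j k, 0 ≤ a j k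
  hb : ∀ j k, 0 ≤ b j k
  hc : ∀ j k, Complex.normSq (c j k) ≤ a j k * b j k
  diag : ∀ k, 0 = (∑ j, a j k) * (∑ j, b j k) - ∑ j, Complex.normSq (c j k)
  off : ∀ k l, k ≠ l → wt k l = (∑ j, a j k) * (∑ j, b j l) + (∑ j, a j l) * (∑ j, b j k)
    - ∑ j, 2 * ((c j k).re * (c j l).re + (c j k).im * (c j l).im)

lemma exists_data {m : ℕ} (A : Fin m → Fin 7 → Matrix (Fin 2) (Fin 2) ℂ)
    (hA : ∀ j k, (A j k).PosSemidef)
    (h : MvPolynomial.map (algebraMap ℝ ℂ) quad = eta (fun j => pencil (A j))) :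
    Nonempty (Data m) := by
  have hev : ∀ z : Fin 7 → ℂ, (∑ k, ∑ l, if k < l then ((wt k l : ℝ) : ℂ) * z k * z l else 0)
      = (∑ j, ∑ k, A j k 0 0 * z k) * (∑ j, ∑ k, A j k 1 1 * z k)
        - ∑ j, (∑ k, A j k 0 1 * z k) * (∑ k, A j k 1 0 * z k) := by
    intro z
    rw [← aeval_quad]
    have h1 : aeval z quad = MvPolynomial.eval z (MvPolynomial.map (algebraMap ℝ ℂ) quad) := by
      rw [MvPolynomial.eval_map]
      rfl
    rw [h1, h, eta_map, eta_two]
    simp [pencil]
  have h00 : ∀ j k, A j k 0 0 = (((A j k 0 0).re : ℝ) : ℂ) ∧ 0 ≤ (A j k 0 0).re := by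
    intro j k
    have := (hA j k).diag_nonneg (i := 0)
    rw [Complex.le_def] at this
    refine ⟨?_, this.1⟩
    apply Complex.ext
    · simp
    · simpa using this.2.symm
  have h11 : ∀ j k, A j k 1 1 = (((A j k 1 1).re : ℝ) : ℂ) ∧ 0 ≤ (A j k 1 1).re := by
    intro j k
    have := (hA j k).diag_nonneg (i := 1)
    rw [Complex.le_def] at this
    refine ⟨?_, this.1⟩
    apply Complex.ext
    · simp
    · simpa using this.2.symm
  have h10 : ∀ j k, A j k 1 0 = (starRingEnd ℂ) (A j k 0 1) := by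
    intro j k
    exact ((hA j k).isHermitian.apply 1 0).symm
  have hdet : ∀ j k, Complex.normSq (A j k 0 1) ≤ (A j k 0 0).re * (A j k 1 1).re := by
    intro j k
    have := (hA j k).det_nonneg
    rw [Matrix.det_fin_two, h10, Complex.le_def] at this
    have h1 := this.1
    rw [(h00 j k).1, (h11 j k).1, Complex.mul_conj] at h1
    simp at h1
    linarith
  refine ⟨⟨fun j k => (A j k 0 0).re, fun j k => (A j k 1 1).re, fun j k => A j k 0 1,
    fun j k => (h00 j k).2, fun j k => (h11 j k).2, hdet, ?_, ?_⟩⟩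
  · intro k
    have := hev (Pi.single k 1)
    rw [sum_at_single] at this
    simp only [Pi.single_apply, mul_ite, mul_one, mul_zero, Finset.sum_ite_eq', Finset.mem_univ,
      if_true] at this
    have h2 := congrArg Complex.re this
    simp only [Complex.zero_re] at h2
    rw [h2]
    simp_rw [h10, Complex.mul_conj]
    have e1 : (∑ j, A j k 0 0) = (((∑ j, (A j k 0 0).re) : ℝ) : ℂ) := by
      rw [Complex.ofReal_sum]; exact Finset.sum_congr rfl (fun j _ => (h00 j k).1)
    have e2 : (∑ j, A j k 1 1) = (((∑ j, (A j k 1 1).re) : ℝ) : ℂ) := by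
      rw [Complex.ofReal_sum]; exact Finset.sum_congr rfl (fun j _ => (h11 j k).1)
    rw [e1, e2, ← Complex.ofReal_sum, ← Complex.ofReal_mul, ← Complex.ofReal_sub,
      Complex.ofReal_re]
  · have hlt : ∀ k l, k < l → wt k l = (∑ j, (A j k 0 0).re) * (∑ j, (A j l 1 1).re)
        + (∑ j, (A j l 0 0).re) * (∑ j, (A j k 1 1).re)
        - ∑ j, 2 * ((A j k 0 1).re * (A j l 0 1).re + (A j k 0 1).im * (A j l 0 1).im) := by
      intro k l hkl
      have e1 : ∀ k, (∑ j, A j k 0 0) = (((∑ j, (A j k 0 0).re) : ℝ) : ℂ) := by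
        intro k
        rw [Complex.ofReal_sum]; exact Finset.sum_congr rfl (fun j _ => (h00 j k).1)
      have e2 : ∀ k, (∑ j, A j k 1 1) = (((∑ j, (A j k 1 1).re) : ℝ) : ℂ) := by
        intro k
        rw [Complex.ofReal_sum]; exact Finset.sum_congr rfl (fun j _ => (h11 j k).1)
      have d0 := hev (Pi.single k 1 + Pi.single l 1)
      rw [sum_at_pair k l hkl] at d0
      have dk := hev (Pi.single k 1)
      rw [sum_at_single] at dk
      have dl := hev (Pi.single l 1)
      rw [sum_at_single] at dl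
      simp only [Pi.add_apply, Pi.single_apply, mul_add, mul_ite, mul_one, mul_zero,
        Finset.sum_add_distrib, Finset.sum_ite_eq', Finset.mem_univ, if_true] at d0 dk dl
      simp only [add_mul, Finset.sum_add_distrib] at d0
      have d1 : ((wt k l : ℝ) : ℂ) = (∑ j, A j k 0 0) * (∑ j, A j l 1 1)
          + (∑ j, A j l 0 0) * (∑ j, A j k 1 1)
          - ((∑ j, A j k 0 1 * A j l 1 0) + ∑ j, A j l 0 1 * A j k 1 0) := by
        rw [d0]
        linear_combination -dk - dl
      rw [e1, e1, e2, e2, ← Finset.sum_add_distrib] at d1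
      have d2 := congrArg Complex.re d1
      simp only [Complex.ofReal_re, Complex.sub_re, Complex.add_re, Complex.re_sum,
        ← Complex.ofReal_mul] at d2
      rw [d2]
      congr 1
      apply Finset.sum_congr rfl
      intro j _
      rw [h10, h10]
      simp only [Complex.mul_re, Complex.conj_re, Complex.conj_im]
      ring
    intro k l hkl
    rcases lt_or_gt_of_ne hkl with h1 | h1
    · exact hlt k l h1
    · rw [wt_symm, hlt l k h1]
      rw [add_comm]
      congr 1
      apply Finset.sum_congr rfl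
      intro j _
      ring

/-- From the zero diagonal: in each pencil the bound is attained and the mixed products vanish. -/
lemma data_vanish {m : ℕ} (D : Data m) (k : Fin 7) :
    (∀ j, Complex.normSq (D.c j k) = D.a j k * D.b j k) ∧
    (∀ j j', j ≠ j' → D.a j k * D.b j' k = 0) := by
  have h := D.diag k
  have e : (∑ j, D.a j k) * (∑ j, D.b j k) = (∑ j, D.a j k * D.b j k)
      + ∑ j, ∑ j' ∈ Finset.univ.erase j, D.a j k * D.b j' k := by
    rw [Finset.sum_mul_sum, ← Finset.sum_add_distrib]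
    apply Finset.sum_congr rfl
    intro j _
    exact (Finset.add_sum_erase _ (fun j' => D.a j k * D.b j' k) (Finset.mem_univ j)).symm
  have h1 : 0 ≤ ∑ j, (D.a j k * D.b j k - Complex.normSq (D.c j k)) :=
    Finset.sum_nonneg (fun j _ => sub_nonneg.mpr (D.hc j k))
  have h2 : 0 ≤ ∑ j, ∑ j' ∈ Finset.univ.erase j, D.a j k * D.b j' k :=
    Finset.sum_nonneg (fun j _ => Finset.sum_nonneg (fun j' _ => mul_nonneg (D.ha j k) (D.hb j' k)))
  rw [e] at h
  have h3 : ∑ j, (D.a j k * D.b j k - Complex.normSq (D.c j k)) = 0 := by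
    rw [Finset.sum_sub_distrib] at h1 ⊢
    linarith
  have h4 : ∑ j, ∑ j' ∈ Finset.univ.erase j, D.a j k * D.b j' k = 0 := by
    rw [Finset.sum_sub_distrib] at h3
    linarith
  constructor
  · intro j
    have := (Finset.sum_eq_zero_iff_of_nonneg (fun j _ => sub_nonneg.mpr (D.hc j k))).mp h3 j
      (Finset.mem_univ _)
    linarith
  · intro j j' hjj
    have h5 := (Finset.sum_eq_zero_iff_of_nonneg (fun j _ => Finset.sum_nonneg
      (fun j' _ => mul_nonneg (D.ha j k) (D.hb j' k)))).mp h4 j (Finset.mem_univ _)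
    exact (Finset.sum_eq_zero_iff_of_nonneg
      (fun j' _ => mul_nonneg (D.ha j k) (D.hb j' k))).mp h5 j' (by simp [Ne.symm hjj])

/-- Two variables share a pencil. -/
def Share {m : ℕ} (D : Data m) (k l : Fin 7) : Prop := ∃ j, D.c j k ≠ 0 ∧ D.c j l ≠ 0

lemma unique_pencil {m : ℕ} (D : Data m) (k : Fin 7) (j : Fin m) (h : D.c j k ≠ 0) :
    (∀ j', j' ≠ j → D.a j' k = 0 ∧ D.b j' k = 0) := by
  intro j' hj'
  obtain ⟨h1, h2⟩ := data_vanish D k
  have h3 : 0 < D.a j k * D.b j k := by
    rw [← h1 j]; exact Complex.normSq_pos.mpr h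
  have ha : D.a j k ≠ 0 := fun h0 => by rw [h0] at h3; simp at h3
  have hb : D.b j k ≠ 0 := fun h0 => by rw [h0] at h3; simp at h3
  have h4 := h2 j j' (Ne.symm hj')
  have h5 := h2 j' j hj'
  exact ⟨(mul_eq_zero.mp h5).resolve_right hb, (mul_eq_zero.mp h4).resolve_left ha⟩

lemma c_zero {m : ℕ} (D : Data m) (k : Fin 7) (j : Fin m) (h : D.c j k ≠ 0) (j' : Fin m)
    (hj' : j' ≠ j) : D.c j' k = 0 := by
  have h1 := (data_vanish D k).1 j'
  rw [(unique_pencil D k j h j' hj').1, zero_mul] at h1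
  exact Complex.normSq_eq_zero.mp h1

/-- Off-diagonal coefficients for variables not sharing a pencil. -/
lemma off_of_not_share {m : ℕ} (D : Data m) (k l : Fin 7) (hkl : k ≠ l) (h : ¬ Share D k l) :
    wt k l = (∑ j, D.a j k) * (∑ j, D.b j l) + (∑ j, D.a j l) * (∑ j, D.b j k) := by
  rw [D.off k l hkl]
  have : ∑ j, 2 * ((D.c j k).re * (D.c j l).re + (D.c j k).im * (D.c j l).im) = 0 := by
    apply Finset.sum_eq_zero
    intro j _
    by_cases h1 : D.c j k = 0
    · simp [h1]
    · by_cases h2 : D.c j l = 0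
      · simp [h2]
      · exact absurd ⟨j, h1, h2⟩ h
  rw [this, sub_zero]

/-- Three against three. -/
lemma three_three {m : ℕ} (D : Data m) (x y : Fin 3 → Fin 7) (hx : Function.Injective x)
    (hy : Function.Injective y) (hxy : ∀ s t, x s ≠ y t ∧ ¬ Share D (x s) (y t)) : False := by
  set α : Fin 7 → ℝ := fun k => ∑ j, D.a j k with hα
  set β : Fin 7 → ℝ := fun k => ∑ j, D.b j k with hβ
  have h : ∀ s t, wt (x s) (y t) = α (x s) * β (y t) + α (y t) * β (x s) := fun s t =>
    off_of_not_share D _ _ (hxy s t).1 (hxy s t).2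
  have hdet : wt (x 0) (y 0) * (wt (x 1) (y 1) * wt (x 2) (y 2) - wt (x 1) (y 2) * wt (x 2) (y 1))
      - wt (x 0) (y 1) * (wt (x 1) (y 0) * wt (x 2) (y 2) - wt (x 1) (y 2) * wt (x 2) (y 0))
      + wt (x 0) (y 2) * (wt (x 1) (y 0) * wt (x 2) (y 1) - wt (x 1) (y 1) * wt (x 2) (y 0)) = 0 := by
    simp only [h]
    ring
  unfold wt at hdet
  have hcast : ∀ (f : Fin 3 → Fin 7), Function.Injective f → ∀ s t, s ≠ t →
      (((f s : Fin 7) : ℕ) : ℝ) - (((f t : Fin 7) : ℕ) : ℝ) ≠ 0 := by
    intro f hf s t hst h0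
    rw [sub_eq_zero] at h0
    have h1 : ((f s : Fin 7) : ℕ) = ((f t : Fin 7) : ℕ) := by exact_mod_cast h0
    exact hst (hf (Fin.ext h1))
  have hfac : (((((x 0 : Fin 7) : ℕ) : ℝ) - (((x 1 : Fin 7) : ℕ) : ℝ)) *
      ((((x 0 : Fin 7) : ℕ) : ℝ) - (((x 2 : Fin 7) : ℕ) : ℝ)) *
      ((((x 1 : Fin 7) : ℕ) : ℝ) - (((x 2 : Fin 7) : ℕ) : ℝ))) *
      (((((y 0 : Fin 7) : ℕ) : ℝ) - (((y 1 : Fin 7) : ℕ) : ℝ)) *
      ((((y 0 : Fin 7) : ℕ) : ℝ) - (((y 2 : Fin 7) : ℕ) : ℝ)) *
      ((((y 1 : Fin 7) : ℕ) : ℝ) - (((y 2 : Fin 7) : ℕ) : ℝ))) = 0 := by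
    linear_combination (1/2) * hdet
  have x01 := hcast x hx 0 1 (by decide)
  have x02 := hcast x hx 0 2 (by decide)
  have x12 := hcast x hx 1 2 (by decide)
  have y01 := hcast y hy 0 1 (by decide)
  have y02 := hcast y hy 0 2 (by decide)
  have y12 := hcast y hy 1 2 (by decide)
  exact (mul_ne_zero (mul_ne_zero (mul_ne_zero x01 x02) x12)
    (mul_ne_zero (mul_ne_zero y01 y02) y12)) hfac

/-- The polar form of twice the quadratic form. -/
noncomputable def gg (U V : Fin 7 → ℝ) : ℝ :=
  ∑ k, ∑ l, (wt k l - (if k = l then 1 else 0)) * (U k * V l)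

lemma gg_formula (U V : Fin 7 → ℝ) : gg U V =
    (∑ k : Fin 7, ((k : ℕ) : ℝ) ^ 2 * U k) * (∑ k, V k) +
      (∑ k, U k) * (∑ k : Fin 7, ((k : ℕ) : ℝ) ^ 2 * V k) -
      2 * ((∑ k : Fin 7, ((k : ℕ) : ℝ) * U k) * (∑ k : Fin 7, ((k : ℕ) : ℝ) * V k)) +
      (∑ k, U k) * (∑ k, V k) - ∑ k, U k * V k := by
  have e2 : ∀ k l, (wt k l - (if k = l then 1 else 0)) * (U k * V l)
      = (((k : ℕ) : ℝ) ^ 2 * U k) * V l + U k * (((l : ℕ) : ℝ) ^ 2 * V l)
        - 2 * ((((k : ℕ) : ℝ) * U k) * (((l : ℕ) : ℝ) * V l)) + U k * V l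
        - (if k = l then U k * V l else 0) := by
    intro k l
    unfold wt
    split_ifs <;> ring
  unfold gg
  simp_rw [e2]
  simp only [Finset.sum_sub_distrib, Finset.sum_add_distrib, ← Finset.mul_sum, ← Finset.sum_mul,
    Finset.sum_ite_eq, Finset.mem_univ, if_true]

/-- Five variables cannot live in one pencil. -/
lemma five_in_one {m : ℕ} (D : Data m) (j : Fin m) (K : Finset (Fin 7)) (hK : 5 ≤ K.card)
    (hj : ∀ k ∈ K, D.c j k ≠ 0) : False := by
  set α : Fin 7 → ℝ := fun k => ∑ j, D.a j k with hα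
  set β : Fin 7 → ℝ := fun k => ∑ j, D.b j k with hβ
  -- coefficients
  have hg : ∀ k ∈ K, ∀ l ∈ K, wt k l - (if k = l then 1 else 0) = α k * β l + α l * β k
      - 2 * ((D.c j k).re * (D.c j l).re + (D.c j k).im * (D.c j l).im) := by
    intro k hk l hl
    by_cases hkl : k = l
    · subst hkl
      have h1 := D.diag k
      have h2 : ∑ j', Complex.normSq (D.c j' k) = Complex.normSq (D.c j k) := by
        rw [Finset.sum_eq_single j]
        · intro j' _ hj'
          rw [c_zero D k j (hj k hk) j' hj']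
          simp
        · intro h; exact absurd (Finset.mem_univ _) h
      rw [h2, Complex.normSq_apply] at h1
      simp only [if_true]
      unfold wt
      simp only [hα, hβ]
      linarith
    · rw [if_neg hkl, sub_zero, D.off k l hkl]
      congr 1
      rw [Finset.sum_eq_single j]
      · intro j' _ hj'
        rw [c_zero D k j (hj k hk) j' hj']
        simp
      · intro h; exact absurd (Finset.mem_univ _) h
  -- the kernel
  let L : (Fin 7 → ℝ) →ₗ[ℝ] (Fin 4 → ℝ) × ({k : Fin 7 // k ∉ K} → ℝ) :=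
    { toFun := fun U => (![∑ k, α k * U k, ∑ k, β k * U k, ∑ k, (D.c j k).re * U k,
        ∑ k, (D.c j k).im * U k], fun k => U k)
      map_add' := by
        intro U V
        apply Prod.ext
        · funext i
          fin_cases i <;> simp [mul_add, Finset.sum_add_distrib]
        · rfl
      map_smul' := by
        intro r U
        apply Prod.ext
        · funext i
          fin_cases i <;> simp [Finset.mul_sum, mul_left_comm]
        · rfl }
  have hcard : Fintype.card {k : Fin 7 // k ∉ K} = 7 - K.card := by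
    rw [Fintype.card_subtype_compl]
    simp
  have hker : LinearMap.ker L ≠ ⊥ := by
    apply LinearMap.ker_ne_bot_of_finrank_lt
    rw [Module.finrank_prod, Module.finrank_fin_fun, Module.finrank_fin_fun,
      Module.finrank_fintype_fun_eq_card, hcard]
    omega
  obtain ⟨U, hU, hU0⟩ := (Submodule.ne_bot_iff _).mp hker
  rw [LinearMap.mem_ker] at hU
  have hU1 := congrArg Prod.fst hU
  have hU2 := congrArg Prod.snd hU
  have q0 : ∑ k, α k * U k = 0 := congrFun hU1 0
  have q1 : ∑ k, β k * U k = 0 := congrFun hU1 1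
  have q2 : ∑ k, (D.c j k).re * U k = 0 := congrFun hU1 2
  have q3 : ∑ k, (D.c j k).im * U k = 0 := congrFun hU1 3
  have hsupp : ∀ k, k ∉ K → U k = 0 := fun k hk => congrFun hU2 ⟨k, hk⟩
  have hG : ∀ V : Fin 7 → ℝ, (∀ k, k ∉ K → V k = 0) → gg U V = 0 := by
    intro V hV
    have e1 : ∀ k l, (wt k l - (if k = l then 1 else 0)) * (U k * V l) = (α k * U k) * (β l * V l)
        + (β k * U k) * (α l * V l) - 2 * (((D.c j k).re * U k) * ((D.c j l).re * V l))
        - 2 * (((D.c j k).im * U k) * ((D.c j l).im * V l)) := by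
      intro k l
      by_cases hk : k ∈ K
      · by_cases hl : l ∈ K
        · rw [hg k hk l hl]; ring
        · rw [hV l hl]; ring
      · rw [hsupp k hk]; ring
    unfold gg
    simp_rw [e1]
    simp only [Finset.sum_sub_distrib, Finset.sum_add_distrib, ← Finset.mul_sum, ← Finset.sum_mul,
      q0, q1, q2, q3]
    ring
  classical
  obtain ⟨y, hy⟩ : ∃ y : Fin 7 → ℝ, y = fun k => if k ∈ K then 1 else 0 := ⟨_, rfl⟩
  have hy0 : ∀ k, 0 ≤ y k := by
    intro k
    rw [hy]
    show (0 : ℝ) ≤ if k ∈ K then 1 else 0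
    split_ifs
    · exact zero_le_one
    · exact le_refl _
  have hy1 : ∀ k ∈ K, y k = 1 := by
    intro k hk
    rw [hy]
    exact if_pos hk
  have hyK : ∀ k, k ∉ K → y k = 0 := by
    intro k hk
    rw [hy]
    exact if_neg hk
  obtain ⟨k1, hk1, k2, hk2, hk12⟩ := Finset.one_lt_card.1 (show 1 < K.card by omega)
  have hw0 : ∀ k l : Fin 7, 0 ≤ wt k l - (if k = l then 1 else 0) := by
    intro k l
    unfold wt
    split_ifs
    · have := sq_nonneg ((((k : ℕ) : ℝ) - ((l : ℕ) : ℝ)))
      linarith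
    · have := sq_nonneg ((((k : ℕ) : ℝ) - ((l : ℕ) : ℝ)))
      linarith
  have hyy : 0 < gg y y := by
    unfold gg
    apply Finset.sum_pos'
    · intro k _
      exact Finset.sum_nonneg fun l _ => mul_nonneg (hw0 k l) (mul_nonneg (hy0 k) (hy0 l))
    · refine ⟨k1, Finset.mem_univ _, ?_⟩
      apply Finset.sum_pos'
      · intro l _
        exact mul_nonneg (hw0 k1 l) (mul_nonneg (hy0 k1) (hy0 l))
      · refine ⟨k2, Finset.mem_univ _, ?_⟩
        rw [if_neg hk12, hy1 k1 hk1, hy1 k2 hk2, sub_zero, mul_one, mul_one]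
        unfold wt
        positivity
  have hS : 0 < ∑ k, y k := by
    apply Finset.sum_pos'
    · intro k _
      exact hy0 k
    · refine ⟨k1, Finset.mem_univ _, ?_⟩
      rw [hy1 k1 hk1]
      exact one_pos
  obtain ⟨t, ht⟩ : ∃ t : ℝ, t * ∑ k, y k = ∑ k, U k :=
    ⟨(∑ k, U k) / ∑ k, y k, by field_simp⟩
  have hUU := hG U hsupp
  have hUy := hG y hyK
  rw [gg_formula] at hUU hUy
  have hyy' := gg_formula y y
  have hW : ∑ k, (U k - t * y k) ^ 2 = ∑ k, U k * U k - 2 * t * ∑ k, U k * y k +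
      t ^ 2 * ∑ k, y k * y k := by
    rw [Finset.mul_sum, Finset.mul_sum, ← Finset.sum_sub_distrib, ← Finset.sum_add_distrib]
    apply Finset.sum_congr rfl
    intro k _
    ring
  have hW0 : 0 ≤ ∑ k, (U k - t * y k) ^ 2 := Finset.sum_nonneg (fun k _ => sq_nonneg _)
  have hkey : t ^ 2 * gg y y + ∑ k, (U k - t * y k) ^ 2 +
      2 * (∑ k : Fin 7, ((k : ℕ) : ℝ) * U k - t * ∑ k : Fin 7, ((k : ℕ) : ℝ) * y k) ^ 2 = 0 := by
    rw [hyy', hW]
    rw [← ht] at hUU hUy
    linear_combination (-1 : ℝ) * hUU + 2 * t * hUy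
  have hsq := sq_nonneg (∑ k : Fin 7, ((k : ℕ) : ℝ) * U k - t * ∑ k : Fin 7, ((k : ℕ) : ℝ) * y k)
  have htt : 0 ≤ t ^ 2 * gg y y := by positivity
  have ht0 : t = 0 := by
    have h1 : t ^ 2 * gg y y = 0 := by linarith
    exact pow_eq_zero_iff (two_ne_zero) |>.mp ((mul_eq_zero.1 h1).resolve_right hyy.ne')
  have h8 : ∑ k, (U k - t * y k) ^ 2 = 0 := by linarith
  apply hU0
  funext k
  have h9 := (Finset.sum_eq_zero_iff_of_nonneg (fun k _ => sq_nonneg (U k - t * y k))).mp h8 k
    (Finset.mem_univ _)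
  have h10 := pow_eq_zero_iff (two_ne_zero) |>.mp h9
  rw [ht0, zero_mul, sub_zero] at h10
  exact h10

lemma share_symm {m : ℕ} (D : Data m) {k l : Fin 7} (h : Share D k l) : Share D l k := by
  obtain ⟨j, h1, h2⟩ := h
  exact ⟨j, h2, h1⟩

lemma share_trans {m : ℕ} (D : Data m) {k l r : Fin 7} (h : Share D k l) (h' : Share D l r) :
    Share D k r := by
  obtain ⟨j, h1, h2⟩ := h
  obtain ⟨j', h3, h4⟩ := h'
  have : j' = j := by
    by_contra hne
    exact h3 (c_zero D l j h2 j' hne)
  subst this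
  exact ⟨j', h1, h4⟩

lemma no_data {m : ℕ} (D : Data m) : False := by
  classical
  -- saturated sets
  let P : Finset (Finset (Fin 7)) := Finset.univ.filter
    (fun T => (∀ k ∈ T, ∀ l, Share D k l → l ∈ T) ∧ T.card ≤ 4)
  have hne : P.Nonempty := ⟨∅, by simp [P]⟩
  obtain ⟨T, hT, hmax⟩ := Finset.exists_max_image P Finset.card hne
  simp only [P, Finset.mem_filter, Finset.mem_univ, true_and] at hT hmax
  obtain ⟨hTs, hT4⟩ := hT
  by_cases h3 : 3 ≤ T.card
  · have hc3 : 3 ≤ (Tᶜ).card := by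
      rw [Finset.card_compl, Fintype.card_fin]
      omega
    obtain ⟨s, hs, hs3⟩ := Finset.exists_subset_card_eq h3
    obtain ⟨r, hr, hr3⟩ := Finset.exists_subset_card_eq hc3
    apply three_three D (s.orderEmbOfFin hs3) (r.orderEmbOfFin hr3)
      (s.orderEmbOfFin hs3).injective (r.orderEmbOfFin hr3).injective
    intro i i'
    have h1 := hs (Finset.orderEmbOfFin_mem s hs3 i)
    have h2 := hr (Finset.orderEmbOfFin_mem r hr3 i')
    rw [Finset.mem_compl] at h2
    constructor
    · intro h; rw [h] at h1; exact h2 h1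
    · intro h; exact h2 (hTs _ h1 _ h)
  · have hex : ∃ k, k ∉ T := by
      by_contra h
      push Not at h
      have : T = Finset.univ := Finset.eq_univ_iff_forall.mpr h
      rw [this] at h3
      simp at h3
    obtain ⟨k, hk⟩ := hex
    let Cl : Finset (Fin 7) := Finset.univ.filter (fun l => l = k ∨ Share D k l)
    have hCl : ∀ l ∈ Cl, ∀ r, Share D l r → r ∈ Cl := by
      intro l hl r hr
      simp only [Cl, Finset.mem_filter, Finset.mem_univ, true_and] at hl ⊢
      rcases hl with rfl | hl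
      · right; exact hr
      · right; exact share_trans D hl hr
    have hkC : k ∈ Cl := by simp [Cl]
    have hC5 : 5 ≤ Cl.card := by
      by_contra hlt
      push Not at hlt
      have hle1 := hmax Cl ⟨hCl, by omega⟩
      have hU : ¬ (T ∪ Cl).card ≤ 4 := by
        intro h5
        have hle := hmax (T ∪ Cl) ⟨by
          intro l hl r hr
          rcases Finset.mem_union.mp hl with h | h
          · exact Finset.mem_union_left _ (hTs l h r hr)
          · exact Finset.mem_union_right _ (hCl l h r hr), h5⟩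
        have hlt2 : T.card < (T ∪ Cl).card := by
          apply Finset.card_lt_card
          rw [Finset.ssubset_iff_of_subset Finset.subset_union_left]
          exact ⟨k, Finset.mem_union_right _ hkC, hk⟩
        omega
      have := Finset.card_union_le T Cl
      omega
    -- a common pencil
    have hex2 : ∃ l ∈ Cl, l ≠ k := by
      apply Finset.exists_mem_ne
      omega
    obtain ⟨l, hl, hlk⟩ := hex2
    simp only [Cl, Finset.mem_filter, Finset.mem_univ, true_and] at hl
    obtain ⟨j, hj1, _⟩ := hl.resolve_left hlk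
    apply five_in_one D j Cl hC5
    intro r hr
    simp only [Cl, Finset.mem_filter, Finset.mem_univ, true_and] at hr
    rcases hr with rfl | ⟨j', h1, h2⟩
    · exact hj1
    · have : j' = j := by
        by_contra hne
        exact h1 (c_zero D k j hj1 j' hne)
      rw [← this]; exact h2


end Pool.Agent.Y108.QE.Seven
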