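import Mathlib

/-!
# Symmetric bilinear forms with one positive square
-/

set_option autoImplicit false

namespace Pool.Agent.Y108.QE

open Module

variable {V : Type} [AddCommGroup V] [Module ℝ V]

/-- the reversed inequality of Cauchy and Schwarz for the vector `e` -/
structure Lor (B : LinearMap.BilinForm ℝ V) (e : V) : Prop where
  pos : 0 < B e e
  rc : ∀ x, B x x * B e e ≤ (B x e) ^ 2

section

variable {B : LinearMap.BilinForm ℝ V} (hs : ∀ x y, B x y = B y x)

theorem lor_perp {e x : V} (h : Lor B e) (hx : B x e = 0) : B x x ≤ 0 := by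
  have h1 := h.rc x
  rw [hx] at h1
  by_contra h2
  push Not at h2
  have := mul_pos h2 h.pos
  nlinarith

include hs

theorem lor_rad {e x : V} (h : Lor B e) (hx : B x e = 0) (hxx : B x x = 0) (y : V) :
    B x y = 0 := by
  by_contra hne
  have he := h.pos
  obtain ⟨t, ht⟩ : ∃ t : ℝ, 2 * t * B x y * B e e = (B y e) ^ 2 + 1 - B y y * B e e :=
    ⟨((B y e) ^ 2 + 1 - B y y * B e e) / (2 * B x y * B e e), by field_simp⟩
  have h1 := h.rc (y + t • x)
  simp only [map_add, map_smul, LinearMap.add_apply, LinearMap.smul_apply, smul_eq_mul] at h1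
  rw [hx, hxx, hs y x] at h1
  nlinarith

theorem lor_fw {e x y : V} (h : Lor B e) (hx : 0 ≤ B x x) (hxe : 0 ≤ B x e) (hy : 0 ≤ B y y)
    (hye : 0 ≤ B y e) : 0 ≤ B x y := by
  rcases hxe.eq_or_lt with h0 | h0
  · have h1 := lor_perp h h0.symm
    exact (lor_rad hs h h0.symm (le_antisymm h1 hx) y).ge
  rcases hye.eq_or_lt with h0' | h0'
  · have h1 := lor_perp h h0'.symm
    rw [hs x y]
    exact (lor_rad hs h h0'.symm (le_antisymm h1 hy) x).ge
  have h1 : B ((B y e) • x - (B x e) • y) e = 0 := by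
    simp only [map_sub, map_smul, LinearMap.sub_apply, LinearMap.smul_apply, smul_eq_mul]
    ring
  have h2 := lor_perp h h1
  simp only [map_sub, map_smul, LinearMap.sub_apply, LinearMap.smul_apply, smul_eq_mul] at h2
  rw [hs y x] at h2
  by_contra h3
  push Not at h3
  have h4 := mul_pos h0 h0'
  have h5 : 0 ≤ (B y e) ^ 2 * B x x := by positivity
  have h6 : 0 ≤ (B x e) ^ 2 * B y y := by positivity
  have h7 := mul_pos_of_neg_of_neg h3 (neg_neg_of_pos h4)
  nlinarith

theorem lor_change {e w : V} (h : Lor B e) (hw : 0 < B w w) : Lor B w := by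
  refine ⟨hw, fun x => ?_⟩
  obtain ⟨c, hc⟩ : ∃ c : ℝ, c * B w w = B x w := ⟨B x w / B w w, by field_simp⟩
  obtain ⟨z, hz⟩ : ∃ z : V, z = x - c • w := ⟨_, rfl⟩
  have hzw : B z w = 0 := by
    rw [hz]
    simp only [map_sub, map_smul, LinearMap.sub_apply, LinearMap.smul_apply, smul_eq_mul]
    linarith
  have hzz : B x x = B z z + c ^ 2 * B w w := by
    have : x = z + c • w := by rw [hz]; abel
    rw [this]
    simp only [map_add, map_smul, LinearMap.add_apply, LinearMap.smul_apply, smul_eq_mul]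
    rw [hs w z, hzw]
    ring
  have hwe : B w e ≠ 0 := by
    intro h0
    have := lor_perp h h0
    linarith
  have hz0 : B z z ≤ 0 := by
    by_contra h1
    push Not at h1
    have h2 : B ((B w e) • z - (B z e) • w) e = 0 := by
      simp only [map_sub, map_smul, LinearMap.sub_apply, LinearMap.smul_apply, smul_eq_mul]
      ring
    have h3 := lor_perp h h2
    simp only [map_sub, map_smul, LinearMap.sub_apply, LinearMap.smul_apply, smul_eq_mul] at h3
    rw [hs w z, hzw] at h3
    have h4 : 0 < (B w e) ^ 2 * B z z := by positivity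
    have h5 : 0 ≤ (B z e) ^ 2 * B w w := by positivity
    nlinarith
  rw [hzz, ← hc]
  nlinarith

/-- projection to a subspace -/
theorem lor_proj {e : V} (h : Lor B e) (E : Submodule ℝ V) [FiniteDimensional ℝ E] (he : e ∈ E)
    (y : V) : ∃ u ∈ E, ∀ x ∈ E, B (y - u) x = 0 := by
  classical
  obtain ⟨v, hv⟩ : ∃ v : Basis (Fin (finrank ℝ E)) ℝ E, (B.restrict E).IsOrthoᵢ v :=
    LinearMap.BilinForm.exists_orthogonal_basis ⟨fun a b => hs a b⟩
  have hv' : ∀ i j, i ≠ j → B (v i) (v j) = 0 := fun i j hij => hv hij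
  obtain ⟨c, hc⟩ : ∃ c : Fin (finrank ℝ E) → ℝ, c = fun i => B y (v i) / B (v i) (v i) :=
    ⟨_, rfl⟩
  refine ⟨∑ i, c i • (v i : V), Submodule.sum_mem _ fun i _ => E.smul_mem _ (v i).2, ?_⟩
  have key : ∀ j, B (y - ∑ i, c i • (v i : V)) (v j) = 0 := by
    intro j
    have h1 : B (∑ i, c i • (v i : V)) (v j) = c j * B (v j) (v j) := by
      rw [map_sum, LinearMap.sum_apply, Finset.sum_eq_single j]
      · simp
      · intro i _ hij
        rw [map_smul, LinearMap.smul_apply, hv' i j hij, smul_zero]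
      · intro h2
        exact absurd (Finset.mem_univ j) h2
    rw [map_sub, LinearMap.sub_apply, h1, hc]
    by_cases h0 : B (v j) (v j) = 0
    · have h2 : B (v j) e = 0 := by
        have h3 : (B.restrict E) (v j) = 0 := by
          apply v.ext
          intro i
          by_cases hij : j = i
          · rw [← hij]
            exact h0
          · exact hv' j i hij
        have h4 := congrArg (fun g : E →ₗ[ℝ] ℝ => g ⟨e, he⟩) h3
        exact h4
      have h5 := lor_rad hs h h2 h0 y
      rw [hs, h5, h0]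
      simp
    · field_simp
      ring
  intro x hx
  have h6 : (B (y - ∑ i, c i • (v i : V))).comp E.subtype = 0 := by
    apply v.ext
    intro j
    exact key j
  have h7 := congrArg (fun g : E →ₗ[ℝ] ℝ => g ⟨x, hx⟩) h6
  exact h7

/-- two isotropic vectors in a plane -/
theorem lor_plane {w : V} (hw : Lor B w) (h : V) : ∃ p ∈ Submodule.span ℝ {w, h},
    ∃ q ∈ Submodule.span ℝ {w, h}, (∀ x, B x x ≤ B x p * B x q) ∧ B w w = B w p * B w q ∧
      B h h = B h p * B h q ∧ ∀ x, 0 ≤ B x x → 0 ≤ B x w → 0 ≤ B x p ∧ 0 ≤ B x q := by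
  have hwE : w ∈ Submodule.span ℝ {w, h} := Submodule.subset_span (by simp)
  have hhE : h ∈ Submodule.span ℝ {w, h} := Submodule.subset_span (by simp)
  obtain ⟨s, hs0, hs2⟩ : ∃ s : ℝ, 0 < s ∧ s ^ 2 = B w w :=
    ⟨Real.sqrt (B w w), Real.sqrt_pos.2 hw.pos, Real.sq_sqrt hw.pos.le⟩
  obtain ⟨g, hg⟩ : ∃ g : V, g = s⁻¹ • w := ⟨_, rfl⟩
  have hgE : g ∈ Submodule.span ℝ {w, h} := by rw [hg]; exact Submodule.smul_mem _ _ hwE
  have hwg : w = s • g := by rw [hg, smul_smul, mul_inv_cancel₀ hs0.ne', one_smul]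
  have hgg : B g g = 1 := by
    rw [hg]
    simp only [map_smul, LinearMap.smul_apply, smul_eq_mul]
    rw [← hs2]
    field_simp
  have hxg : ∀ x, B x w = s * B x g := by
    intro x
    rw [hwg]
    simp
  obtain ⟨h', hh'⟩ : ∃ h' : V, h' = h - B h g • g := ⟨_, rfl⟩
  have hh'E : h' ∈ Submodule.span ℝ {w, h} := by
    rw [hh']
    exact Submodule.sub_mem _ hhE (Submodule.smul_mem _ _ hgE)
  have hh'g : B h' g = 0 := by
    rw [hh']
    simp only [map_sub, map_smul, LinearMap.sub_apply, LinearMap.smul_apply, smul_eq_mul]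
    rw [hgg]
    ring
  have hh : h = h' + B h g • g := by rw [hh']; abel
  have hperp : ∀ z, B z g = 0 → B z z ≤ 0 := by
    intro z hz
    apply lor_perp hw
    rw [hxg, hz, mul_zero]
  have hr := hperp h' hh'g
  have hhh : B h h = B h' h' + (B h g) ^ 2 := by
    conv_lhs => rw [hh]
    simp only [map_add, map_smul, LinearMap.add_apply, LinearMap.smul_apply, smul_eq_mul]
    rw [hs g h', hh'g, hgg]
    ring
  have hBwg : B w g = s := by
    rw [hwg]
    simp [hgg]
  rcases hr.eq_or_lt with h0 | h0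
  · refine ⟨g, hgE, g, hgE, ?_, ?_, ?_, ?_⟩
    · intro x
      have h1 := hperp (x - B x g • g) (by
        simp only [map_sub, map_smul, LinearMap.sub_apply, LinearMap.smul_apply, smul_eq_mul]
        rw [hgg]
        ring)
      simp only [map_sub, map_smul, LinearMap.sub_apply, LinearMap.smul_apply, smul_eq_mul] at h1
      rw [hs g x, hgg] at h1
      nlinarith
    · rw [hBwg, ← hs2]
      ring
    · rw [hhh, h0]
      ring
    · intro x _ hxw
      rw [hxg] at hxw
      have := nonneg_of_mul_nonneg_right hxw hs0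
      exact ⟨this, this⟩
  · obtain ⟨r, hr0, hr2⟩ : ∃ r : ℝ, 0 < r ∧ r ^ 2 = -B h' h' :=
      ⟨Real.sqrt (-B h' h'), Real.sqrt_pos.2 (by linarith), Real.sq_sqrt (by linarith)⟩
    obtain ⟨k, hk⟩ : ∃ k : V, k = r⁻¹ • h' := ⟨_, rfl⟩
    have hkE : k ∈ Submodule.span ℝ {w, h} := by rw [hk]; exact Submodule.smul_mem _ _ hh'E
    have hkg : B k g = 0 := by
      rw [hk]
      simp [hh'g]
    have hkk : B k k = -1 := by
      rw [hk]
      simp only [map_smul, LinearMap.smul_apply, smul_eq_mul]
      have : B h' h' = - r ^ 2 := by linarith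
      rw [this]
      field_simp
    have hh'k : h' = r • k := by rw [hk, smul_smul, mul_inv_cancel₀ hr0.ne', one_smul]
    have hBhk : B h k = - r := by
      rw [hh, hh'k]
      simp only [map_add, map_smul, LinearMap.add_apply, LinearMap.smul_apply, smul_eq_mul]
      rw [hkk, hs g k, hkg]
      ring
    have hBwk : B w k = 0 := by
      rw [hwg]
      simp [hs g k, hkg]
    have hmain : ∀ x, B x x ≤ (B x g) ^ 2 - (B x k) ^ 2 := by
      intro x
      have h1 := hperp (x - B x g • g + B x k • k) (by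
        simp only [map_sub, map_add, map_smul, LinearMap.sub_apply, LinearMap.add_apply,
          LinearMap.smul_apply, smul_eq_mul]
        rw [hgg, hkg]
        ring)
      simp only [map_sub, map_add, map_smul, LinearMap.sub_apply, LinearMap.add_apply,
          LinearMap.smul_apply, smul_eq_mul] at h1
      rw [hs g x, hs k x, hgg, hkk, hs g k, hkg] at h1
      nlinarith
    refine ⟨g + k, Submodule.add_mem _ hgE hkE, g - k, Submodule.sub_mem _ hgE hkE, ?_, ?_, ?_, ?_⟩
    · intro x
      rw [map_add, map_sub]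
      have := hmain x
      nlinarith
    · rw [map_add, map_sub, hBwg, hBwk, ← hs2]
      ring
    · rw [map_add, map_sub, hBhk, hhh]
      have : B h' h' = - r ^ 2 := by linarith
      rw [this]
      ring
    · intro x hxx hxw
      rw [hxg] at hxw
      have h1 := nonneg_of_mul_nonneg_right hxw hs0
      have h2 := hmain x
      rw [map_add, map_sub]
      have h3 : |B x k| ≤ B x g := abs_le_of_sq_le_sq (by linarith) h1
      have h4 := abs_le.1 h3
      constructor <;> linarith

end

/-! ### Semidefinite forms -/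

theorem psd_rad {N : LinearMap.BilinForm ℝ V} (hs : ∀ x y, N x y = N y x)
    (hp : ∀ x, 0 ≤ N x x) {x : V} (hx : N x x = 0) : N x = 0 := by
  ext y
  show N x y = 0
  by_contra hne
  obtain ⟨t, ht⟩ : ∃ t : ℝ, 2 * t * N x y = -(N y y) - 1 :=
    ⟨(-(N y y) - 1) / (2 * N x y), by field_simp⟩
  have h1 := hp (y + t • x)
  simp only [map_add, map_smul, LinearMap.add_apply, LinearMap.smul_apply, smul_eq_mul] at h1
  rw [hx, hs y x] at h1
  linarith

theorem psd_step [FiniteDimensional ℝ V] {N : LinearMap.BilinForm ℝ V}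
    (hs : ∀ x y, N x y = N y x) (hp : ∀ x, 0 ≤ N x x) {v : V} (hv : N v v ≠ 0) :
    ∃ (p : V →ₗ[ℝ] ℝ) (N' : LinearMap.BilinForm ℝ V), (∀ x y, N' x y = N' y x) ∧
      (∀ x, 0 ≤ N' x x) ∧ (∀ x, N x x = p x ^ 2 + N' x x) ∧
      finrank ℝ (LinearMap.ker N) + 1 ≤ finrank ℝ (LinearMap.ker N') := by
  have hv0 : 0 < N v v := lt_of_le_of_ne (hp v) (Ne.symm hv)
  obtain ⟨s, hs0, hs2⟩ : ∃ s : ℝ, 0 < s ∧ s ^ 2 = N v v :=
    ⟨Real.sqrt (N v v), Real.sqrt_pos.2 hv0, Real.sq_sqrt hv0.le⟩
  obtain ⟨p, hpd⟩ : ∃ p : V →ₗ[ℝ] ℝ, p = s⁻¹ • N v := ⟨_, rfl⟩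
  have hpx : ∀ x, p x = s⁻¹ * N v x := by
    intro x
    rw [hpd]
    rfl
  obtain ⟨N', hN'⟩ : ∃ N' : LinearMap.BilinForm ℝ V, N' = N - p.smulRight p := ⟨_, rfl⟩
  have hN'x : ∀ x y, N' x y = N x y - p x * p y := by
    intro x y
    rw [hN']
    rfl
  refine ⟨p, N', ?_, ?_, ?_, ?_⟩
  · intro x y
    rw [hN'x, hN'x, hs x y]
    ring
  · intro x
    rw [hN'x, hpx]
    have h1 := hp (x - (N v x / N v v) • v)
    simp only [map_sub, map_smul, LinearMap.sub_apply, LinearMap.smul_apply, smul_eq_mul] at h1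
    rw [hs x v] at h1
    have h2 : N x x - N v x / N v v * N v x - N v x / N v v * (N v x - N v x / N v v * N v v) =
        N x x - s⁻¹ * N v x * (s⁻¹ * N v x) := by
      rw [← hs2]
      field_simp
      ring
    linarith
  · intro x
    rw [hN'x]
    ring
  · have hlt : LinearMap.ker N < LinearMap.ker N' := by
      rw [SetLike.lt_iff_le_and_exists]
      constructor
      · intro x hx
        rw [LinearMap.mem_ker] at hx ⊢
        ext y
        show N' x y = 0
        rw [hN'x, hpx x, hs v x, hx]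
        simp
      · refine ⟨v, ?_, ?_⟩
        · rw [LinearMap.mem_ker]
          ext y
          show N' v y = 0
          rw [hN'x, hpx, hpx, ← hs2]
          field_simp
          ring
        · rw [LinearMap.mem_ker]
          intro h0
          exact hv (by rw [h0]; rfl)
    exact Submodule.finrank_lt_finrank_of_lt hlt

theorem psd_zero {N : LinearMap.BilinForm ℝ V} (h : ¬ ∃ v, N v v ≠ 0) (x : V) : N x x = 0 := by
  push Not at h
  exact h x

/-- a semidefinite form with a kernel of codimension at most two is the sum of two squares -/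
theorem psd_two [FiniteDimensional ℝ V] {N : LinearMap.BilinForm ℝ V}
    (hs : ∀ x y, N x y = N y x) (hp : ∀ x, 0 ≤ N x x)
    (hk : finrank ℝ V ≤ finrank ℝ (LinearMap.ker N) + 2) :
    ∃ p q : V →ₗ[ℝ] ℝ, ∀ x, N x x = p x ^ 2 + q x ^ 2 := by
  by_cases h1 : ∃ v, N v v ≠ 0
  · obtain ⟨v, hv⟩ := h1
    obtain ⟨p, N', hs', hp', hN', hk'⟩ := psd_step hs hp hv
    by_cases h2 : ∃ v, N' v v ≠ 0
    · obtain ⟨v', hv'⟩ := h2
      obtain ⟨q, N'', hs'', hp'', hN'', hk''⟩ := psd_step hs' hp' hv'
      refine ⟨p, q, fun x => ?_⟩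
      have h3 : LinearMap.ker N'' = ⊤ := by
        apply Submodule.eq_top_of_finrank_eq
        have := Submodule.finrank_le (LinearMap.ker N'')
        omega
      have h4 : N'' = 0 := LinearMap.ker_eq_top.1 h3
      rw [hN', hN'', h4]
      simp
      
    · refine ⟨p, 0, fun x => ?_⟩
      rw [hN', psd_zero h2 x]
      simp
  · refine ⟨0, 0, fun x => ?_⟩
    rw [psd_zero h1 x]
    simp

end Pool.Agent.Y108.QE
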