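import Pool.Agent.Y108.QE.SplitA

/-!
# The plane used in the splitting
-/

set_option autoImplicit false

namespace Pool.Agent.Y108.QE

open Module Finset

theorem fwd {B : LinearMap.BilinForm ℝ V6} (hs : ∀ x y, B x y = B y x) (S : Finset (Fin 6))
    {e : V6} (heS : e ∈ Sup S) (he : Lor B e)
    (hnn : ∀ k, 0 ≤ B (ee k) (ee k)) (hne : ∀ k, 0 ≤ B (ee k) e) (k : Fin 6) :
    ∃ u ∈ Sup S, 0 ≤ B u u ∧ 0 ≤ B u e ∧ ∀ x ∈ Sup S, B (ee k) x = B u x := by
  obtain ⟨u, huE, hu⟩ := lor_proj hs he (Sup S) heS (ee k)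
  have h1 : ∀ x ∈ Sup S, B (ee k) x = B u x := by
    intro x hx
    have := hu x hx
    rw [map_sub, LinearMap.sub_apply] at this
    linarith
  refine ⟨u, huE, ?_, ?_, h1⟩
  · have h2 := lor_perp he (hu e heS)
    rw [map_sub, map_sub, LinearMap.sub_apply, LinearMap.sub_apply, h1 u huE, hs u (ee k),
      h1 u huE] at h2
    have := hnn k
    linarith
  · rw [← h1 e heS]
    exact hne k

theorem plane {B : LinearMap.BilinForm ℝ V6} (hs : ∀ x y, B x y = B y x) (S : Finset (Fin 6))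
    {i0 j0 : Fin 6} (hi0 : i0 ∈ S) (hj0 : j0 ∈ S) (hij0 : i0 ≠ j0) {e : V6} (heS : e ∈ Sup S)
    (he : Lor B e)
    (hnn : ∀ k, 0 ≤ B (ee k) (ee k)) (hne : ∀ k, 0 ≤ B (ee k) e) {u5 u6 : V6}
    (hu5E : u5 ∈ Sup S) (hu5p : 0 ≤ B u5 u5) (hu5e : 0 ≤ B u5 e)
    (hu6E : u6 ∈ Sup S) (hu6p : 0 ≤ B u6 u6) (hu6e : 0 ≤ B u6 e) :
    ∃ w ∈ Sup S,
      ∃ h ∈ Sup S, 0 < B w w ∧ (∀ s t : ℝ, s • w + t • h = 0 → s = 0 ∧ t = 0) ∧
      (∀ k, 0 ≤ B (ee k) w) ∧ ∃ r5 r6 : V6, (∀ y, B r5 y = 0) ∧ (∀ y, B r6 y = 0) ∧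
        u5 - r5 ∈ Submodule.span ℝ {w, h} ∧ u6 - r6 ∈ Submodule.span ℝ {w, h} := by
  have h56p : 0 ≤ B u5 u6 := lor_fw hs he hu5p hu5e hu6p hu6e
  have hsum : B (u5 + u6) (u5 + u6) = B u5 u5 + 2 * B u5 u6 + B u6 u6 := by
    simp only [map_add, LinearMap.add_apply]
    rw [hs u6 u5]
    ring
  by_cases hα : 0 < B (u5 + u6) (u5 + u6)
  · have hw0 : u5 + u6 ≠ 0 := by
      intro h0
      rw [h0] at hα
      simp at hα
    obtain ⟨h, hhE, hind, hmem⟩ := pick hi0 hj0 hij0 hw0 hu5E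
    refine ⟨u5 + u6, Submodule.add_mem _ hu5E hu6E, h, hhE, hα, hind, ?_, 0, 0, ?_, ?_, ?_, ?_⟩
    · intro k
      rw [map_add]
      exact add_nonneg (lor_fw hs he (hnn k) (hne k) hu5p hu5e)
        (lor_fw hs he (hnn k) (hne k) hu6p hu6e)
    · intro y
      rw [map_zero]
      rfl
    · intro y
      rw [map_zero]
      rfl
    · rw [sub_zero]
      exact hmem
    · rw [sub_zero]
      have h1 : (u5 + u6) - u5 ∈ Submodule.span ℝ {u5 + u6, h} :=
        Submodule.sub_mem _ (Submodule.subset_span (Or.inl rfl)) hmem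
      rwa [add_sub_cancel_left] at h1
  · have h0 : B u5 u5 = 0 ∧ B u5 u6 = 0 ∧ B u6 u6 = 0 := by
      push Not at hα
      rw [hsum] at hα
      refine ⟨by linarith, by linarith, by linarith⟩
    obtain ⟨h55, h56', h66⟩ := h0
    have he0 : e ≠ 0 := by
      intro h0
      have := he.pos
      rw [h0] at this
      simp at this
    obtain ⟨h, hhE, hind, hmem⟩ := pick hi0 hj0 hij0 he0 (Submodule.add_mem _ hu5E hu6E)
    obtain ⟨v, hv⟩ : ∃ v, v = u5 + u6 := ⟨_, rfl⟩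
    rw [← hv] at hmem
    have hve : B v e = B u5 e + B u6 e := by rw [hv, map_add, LinearMap.add_apply]
    obtain ⟨c, hc5⟩ : ∃ c : ℝ, c * B v e = B u5 e := by
      rcases eq_or_ne (B v e) 0 with h1 | h1
      · refine ⟨0, ?_⟩
        rw [zero_mul]
        linarith
      · exact ⟨B u5 e / B v e, by field_simp⟩
    have hvv : B v v = 0 := by rw [hv, hsum, h55, h56', h66]; ring
    have h5v : B u5 v = 0 := by rw [hv, map_add, h55, h56', add_zero]
    have h6v : B u6 v = 0 := by rw [hv, map_add, hs u6 u5, h56', h66]; ring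
    refine ⟨e, heS, h, hhE, he.pos, hind, hne, u5 - c • v, u6 - (1 - c) • v, ?_, ?_, ?_, ?_⟩
    · apply lor_rad hs he
      · simp only [map_sub, map_smul, LinearMap.sub_apply, LinearMap.smul_apply, smul_eq_mul]
        linarith
      · simp only [map_sub, map_smul, LinearMap.sub_apply, LinearMap.smul_apply, smul_eq_mul]
        rw [hs v u5, h55, h5v, hvv]
        ring
    · apply lor_rad hs he
      · simp only [map_sub, map_smul, LinearMap.sub_apply, LinearMap.smul_apply, smul_eq_mul]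
        linarith
      · simp only [map_sub, map_smul, LinearMap.sub_apply, LinearMap.smul_apply, smul_eq_mul]
        rw [hs v u6, h66, h6v, hvv]
        ring
    · rw [sub_sub_cancel]
      exact Submodule.smul_mem _ _ hmem
    · rw [sub_sub_cancel]
      exact Submodule.smul_mem _ _ hmem

end Pool.Agent.Y108.QE
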