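import Pool.Agent.Y108.QE.Lor

/-!
# The symmetric bilinear form of a real stable quadratic form
-/

set_option autoImplicit false

namespace Pool.Agent.Y108.QE

open Module Finset MvPolynomial

/-- A homogeneous polynomial of degree two comes from a symmetric matrix. -/
theorem exists_matrix {l : ℕ} {f : MvPolynomial (Fin l) ℝ} (hf : f.IsHomogeneous 2) :
    ∃ H : Matrix (Fin l) (Fin l) ℝ, (∀ i j, H i j = H j i) ∧
      f = ∑ i, ∑ j, C (H i j) * (X i * X j) := by
  have h1 := hf.sum_X_mul_pderiv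
  have h2 : ∀ i, ((pderiv i) f).IsHomogeneous 1 := fun i => hf.pderiv
  have h3 : ∀ i j, ((pderiv j) ((pderiv i) f)).IsHomogeneous 0 := fun i j => (h2 i).pderiv
  have h4 : ∀ i j, ∃ c : ℝ, (pderiv j) ((pderiv i) f) = C c := by
    intro i j
    have := (h3 i j).totalDegree_le
    exact ⟨_, totalDegree_eq_zero_iff_eq_C.1 (Nat.le_zero.1 this)⟩
  choose c hc using h4
  have h5 : ∀ i, (pderiv i) f = ∑ j, X j * C (c i j) := by
    intro i
    have h6 := (h2 i).sum_X_mul_pderiv
    rw [one_smul] at h6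
    rw [← h6]
    exact Finset.sum_congr rfl fun j _ => by rw [hc]
  have h7 : (2 : MvPolynomial (Fin l) ℝ) * f = ∑ i, ∑ j, C (c i j) * (X i * X j) := by
    have h8 : (2 : MvPolynomial (Fin l) ℝ) * f = 2 • f := by
      rw [two_mul, two_smul]
    rw [h8, ← h1]
    apply Finset.sum_congr rfl
    intro i _
    rw [h5, Finset.mul_sum]
    apply Finset.sum_congr rfl
    intro j _
    ring
  refine ⟨fun i j => (c i j + c j i) / 4, fun i j => by ring, ?_⟩
  have h11 : ∑ i, ∑ j, (C (c i j) * (X i * X j) : MvPolynomial (Fin l) ℝ) =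
      ∑ i, ∑ j, C (c j i) * (X i * X j) := by
    rw [Finset.sum_comm]
    apply Finset.sum_congr rfl
    intro i _
    apply Finset.sum_congr rfl
    intro j _
    ring
  have h9 : (C 4 : MvPolynomial (Fin l) ℝ) * f = C 4 *
      ∑ i, ∑ j, C ((c i j + c j i) / 4) * (X i * X j) := by
    have h10 : (C 4 : MvPolynomial (Fin l) ℝ) * f =
        ∑ i, ∑ j, (C (c i j) * (X i * X j) : MvPolynomial (Fin l) ℝ) +
        ∑ i, ∑ j, C (c j i) * (X i * X j) := by
      have : (C 4 : MvPolynomial (Fin l) ℝ) = 4 := map_ofNat C 4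
      rw [← h11, ← h7, this]
      ring
    rw [h10, ← Finset.sum_add_distrib, Finset.mul_sum]
    apply Finset.sum_congr rfl
    intro i _
    rw [← Finset.sum_add_distrib, Finset.mul_sum]
    apply Finset.sum_congr rfl
    intro j _
    have h13 : (C 4 : MvPolynomial (Fin l) ℝ) * C ((c i j + c j i) / 4) =
        C (c i j) + C (c j i) := by
      rw [← C_mul, ← C_add]
      congr 1
      ring
    rw [← mul_assoc (C 4), h13]
    ring
  have h12 : (C 4 : MvPolynomial (Fin l) ℝ) ≠ 0 := by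
    rw [Ne, C_eq_zero]
    norm_num
  exact mul_left_cancel₀ h12 h9


/-- the bilinear form of a matrix -/
noncomputable abbrev bf {l : ℕ} (H : Matrix (Fin l) (Fin l) ℝ) :
    LinearMap.BilinForm ℝ (Fin l → ℝ) := Matrix.toBilin' H

theorem bf_symm {l : ℕ} {H : Matrix (Fin l) (Fin l) ℝ} (hH : ∀ i j, H i j = H j i)
    (x y : Fin l → ℝ) : bf H x y = bf H y x := by
  rw [Matrix.toBilin'_apply, Matrix.toBilin'_apply, Finset.sum_comm]
  apply Finset.sum_congr rfl
  intro i _
  apply Finset.sum_congr rfl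
  intro j _
  rw [hH]
  ring

theorem eval_bf {l : ℕ} {f : MvPolynomial (Fin l) ℝ} {H : Matrix (Fin l) (Fin l) ℝ}
    (hf : f = ∑ i, ∑ j, C (H i j) * (X i * X j)) (x : Fin l → ℝ) :
    MvPolynomial.eval x f = bf H x x := by
  rw [hf, Matrix.toBilin'_apply, map_sum]
  apply Finset.sum_congr rfl
  intro i _
  rw [map_sum]
  apply Finset.sum_congr rfl
  intro j _
  rw [map_mul, map_mul, eval_C, eval_X, eval_X]
  ring

theorem aeval_bf {l : ℕ} {f : MvPolynomial (Fin l) ℝ} {H : Matrix (Fin l) (Fin l) ℝ}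
    (hH : ∀ i j, H i j = H j i)
    (hf : f = ∑ i, ∑ j, C (H i j) * (X i * X j)) (x y : Fin l → ℝ) :
    aeval (fun k => (x k : ℂ) + (y k : ℂ) * Complex.I) f =
      ((bf H x x - bf H y y : ℝ) : ℂ) + ((2 * bf H x y : ℝ) : ℂ) * Complex.I := by
  have h1 : 2 * bf H x y = bf H x y + bf H y x := by rw [bf_symm hH y x]; ring
  rw [h1, hf, Matrix.toBilin'_apply, Matrix.toBilin'_apply, Matrix.toBilin'_apply,
    Matrix.toBilin'_apply, map_sum, ← Finset.sum_sub_distrib, ← Finset.sum_add_distrib]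
  push_cast
  rw [Finset.sum_mul, ← Finset.sum_add_distrib]
  apply Finset.sum_congr rfl
  intro i _
  rw [map_sum, ← Finset.sum_sub_distrib, ← Finset.sum_add_distrib, Finset.sum_mul,
    ← Finset.sum_add_distrib]
  apply Finset.sum_congr rfl
  intro j _
  rw [map_mul, map_mul, aeval_C, aeval_X, aeval_X]
  have h2 : (algebraMap ℝ ℂ) (H i j) = (H i j : ℂ) := rfl
  rw [h2]
  have h3 : Complex.I * Complex.I = -1 := Complex.I_mul_I
  linear_combination ((H i j : ℂ) * y i * y j) * h3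

/-- the data extracted from stability -/
theorem stable_bf {l : ℕ} {f : MvPolynomial (Fin l) ℝ} {H : Matrix (Fin l) (Fin l) ℝ}
    (hH : ∀ i j, H i j = H j i)
    (hf : f = ∑ i, ∑ j, C (H i j) * (X i * X j))
    (hst : ∀ z : Fin l → ℂ, (∀ k, 0 < (z k).im) → aeval z f ≠ 0)
    (x y : Fin l → ℝ) (hy : ∀ k, 0 < y k) (h1 : bf H x x = bf H y y) (h2 : bf H x y = 0) :
    False := by
  apply hst (fun k => (x k : ℂ) + (y k : ℂ) * Complex.I)
  · intro k
    simpa using hy k
  · rw [aeval_bf hH hf, h1, h2]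
    simp

theorem pos_sign {l : ℕ} {f : MvPolynomial (Fin l) ℝ} {H : Matrix (Fin l) (Fin l) ℝ}
    (hH : ∀ i j, H i j = H j i)
    (hf : f = ∑ i, ∑ j, C (H i j) * (X i * X j))
    (hst : ∀ z : Fin l → ℂ, (∀ k, 0 < (z k).im) → aeval z f ≠ 0)
    {x y : Fin l → ℝ} (hx : ∀ k, 0 < x k) (hy : ∀ k, 0 < y k) (h1 : 0 < bf H x x) :
    0 < bf H y y := by
  have hne : ∀ y : Fin l → ℝ, (∀ k, 0 < y k) → bf H y y ≠ 0 := by
    intro y hy h0
    refine stable_bf hH hf hst 0 y hy ?_ ?_
    · rw [h0, map_zero]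
    · rw [map_zero]
      rfl
  by_contra hcon
  push Not at hcon
  have hlt : bf H y y < 0 := lt_of_le_of_ne hcon (hne y hy)
  have hcont : ContinuousOn (fun t : ℝ => (1 - t) ^ 2 * bf H x x + 2 * (1 - t) * t * bf H x y +
      t ^ 2 * bf H y y) (Set.Icc 0 1) := by fun_prop
  have hiv := intermediate_value_Icc' (zero_le_one (α := ℝ)) hcont
  have h00 : (0 : ℝ) ∈ (fun t : ℝ => (1 - t) ^ 2 * bf H x x + 2 * (1 - t) * t * bf H x y +
      t ^ 2 * bf H y y) '' (Set.Icc 0 1) := by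
    apply hiv
    constructor
    · show (1 - 1 : ℝ) ^ 2 * bf H x x + 2 * (1 - 1) * 1 * bf H x y + 1 ^ 2 * bf H y y ≤ 0
      linarith
    · show 0 ≤ (1 - 0 : ℝ) ^ 2 * bf H x x + 2 * (1 - 0) * 0 * bf H x y + 0 ^ 2 * bf H y y
      linarith
  obtain ⟨t, ⟨ht0, ht1⟩, ht⟩ := h00
  apply hne ((1 - t) • x + t • y)
  · intro k
    show 0 < (1 - t) * x k + t * y k
    rcases ht0.eq_or_lt with h0 | h0
    · rw [← h0]
      simpa using hx k
    · have := mul_nonneg (sub_nonneg.2 ht1) (hx k).le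
      have := mul_pos h0 (hy k)
      linarith
  · rw [← ht]
    simp only [map_add, map_smul, LinearMap.add_apply, LinearMap.smul_apply, smul_eq_mul]
    rw [bf_symm hH y x]
    ring

theorem pos_lor {l : ℕ} {f : MvPolynomial (Fin l) ℝ} {H : Matrix (Fin l) (Fin l) ℝ}
    (hH : ∀ i j, H i j = H j i)
    (hf : f = ∑ i, ∑ j, C (H i j) * (X i * X j))
    (hst : ∀ z : Fin l → ℂ, (∀ k, 0 < (z k).im) → aeval z f ≠ 0)
    {y : Fin l → ℝ} (hy : ∀ k, 0 < y k) (h1 : 0 < bf H y y) : Lor (bf H) y := by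
  refine ⟨h1, fun x => ?_⟩
  by_contra hcon
  push Not at hcon
  obtain ⟨β, hβ0, hβ⟩ : ∃ β : ℝ, 0 < β ∧ β ^ 2 = (bf H x x * bf H y y - bf H x y ^ 2) /
      (bf H y y) ^ 2 :=
    ⟨Real.sqrt _, Real.sqrt_pos.2 (div_pos (by linarith) (by positivity)),
      Real.sq_sqrt (div_nonneg (by linarith) (by positivity))⟩
  refine stable_bf hH hf hst (x - (bf H x y / bf H y y) • y) (β • y) ?_ ?_ ?_
  · intro k
    exact mul_pos hβ0 (hy k)
  · have h2 : bf H (β • y) (β • y) = β ^ 2 * bf H y y := by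
      simp only [map_smul, LinearMap.smul_apply, smul_eq_mul]
      ring
    rw [h2, hβ]
    simp only [map_sub, map_smul, LinearMap.sub_apply, LinearMap.smul_apply, smul_eq_mul]
    rw [bf_symm hH y x]
    field_simp
    ring
  · simp only [map_sub, map_smul, LinearMap.sub_apply, LinearMap.smul_apply, smul_eq_mul]
    field_simp
    ring

theorem nonneg_bf {l : ℕ} {f : MvPolynomial (Fin l) ℝ} {H : Matrix (Fin l) (Fin l) ℝ}
    (hH : ∀ i j, H i j = H j i)
    (hf : f = ∑ i, ∑ j, C (H i j) * (X i * X j))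
    (hst : ∀ z : Fin l → ℂ, (∀ k, 0 < (z k).im) → aeval z f ≠ 0)
    (h1 : 0 < bf H 1 1) {x y : Fin l → ℝ} (hx : ∀ k, 0 ≤ x k) (hy : ∀ k, 0 ≤ y k) :
    0 ≤ bf H x y := by
  have hpos : ∀ x y : Fin l → ℝ, (∀ k, 0 < x k) → (∀ k, 0 < y k) → 0 < bf H x y := by
    intro x y hx hy
    have hxx := pos_sign hH hf hst (fun k => zero_lt_one) hx h1
    have hyy := pos_sign hH hf hst (fun k => zero_lt_one) hy h1
    by_contra hcon
    push Not at hcon
    have hL := pos_lor hH hf hst hy hyy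
    have hv : ∀ k, 0 < (bf H y y • x + (-bf H x y) • y) k := by
      intro k
      show 0 < bf H y y * x k + (-bf H x y) * y k
      have h2 := mul_pos hyy (hx k)
      have h3 := mul_nonneg (neg_nonneg.2 hcon) (hy k).le
      linarith
    have h4 := pos_sign hH hf hst (fun k => zero_lt_one) hv h1
    have h5 : bf H (bf H y y • x + (-bf H x y) • y) y = 0 := by
      simp only [map_add, map_smul, LinearMap.add_apply, LinearMap.smul_apply, smul_eq_mul]
      ring
    have h6 := lor_perp hL h5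
    linarith
  have hlim : Filter.Tendsto (fun ε : ℝ => bf H (x + ε • 1) (y + ε • 1))
      (nhdsWithin 0 (Set.Ioi 0)) (nhds (bf H x y)) := by
    have h2 : (fun ε : ℝ => bf H (x + ε • 1) (y + ε • 1)) =
        fun ε : ℝ => bf H x y + ε * (bf H x 1 + bf H 1 y) + ε ^ 2 * bf H 1 1 := by
      funext ε
      simp only [map_add, map_smul, LinearMap.add_apply, LinearMap.smul_apply, smul_eq_mul]
      ring
    rw [h2]
    have h3 : Continuous (fun ε : ℝ => bf H x y + ε * (bf H x 1 + bf H 1 y) +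
        ε ^ 2 * bf H 1 1) := by fun_prop
    have h4 := h3.tendsto 0
    have h5 : bf H x y + (0 : ℝ) * (bf H x 1 + bf H 1 y) + 0 ^ 2 * bf H 1 1 = bf H x y := by
      ring
    rw [h5] at h4
    exact h4.mono_left nhdsWithin_le_nhds
  apply ge_of_tendsto hlim
  apply Filter.eventually_of_mem self_mem_nhdsWithin
  intro ε hε
  have hε' : 0 < ε := hε
  apply (hpos _ _ _ _).le
  · intro k
    show 0 < x k + ε * 1
    have := hx k
    linarith
  · intro k
    show 0 < y k + ε * 1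
    have := hy k
    linarith

end Pool.Agent.Y108.QE
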