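import Pool.Agent.Y108.QE.Six
import Pool.Agent.Results.MP_378045_ag.NotMixedDet

/-!
# Two pencils for six variables
-/

set_option autoImplicit false

namespace Pool.Agent.Y108.QE

open Module Finset MvPolynomial
open scoped ComplexOrder
open Pool.Agent.Results.MP_378045_ag.NotMixedDet (eta pencil IsRealStable eta_map eta_two)

/-- the `2 × 2` Hermitian matrix with diagonal `a, b` and corner `p + i q` -/
noncomputable def mat (a b p q : ℝ) : Matrix (Fin 2) (Fin 2) ℂ :=
  !![(a : ℂ), (p : ℂ) + (q : ℂ) * Complex.I; (p : ℂ) - (q : ℂ) * Complex.I, (b : ℂ)]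

theorem mat_psd {a b p q : ℝ} (ha : 0 ≤ a) (hb : 0 ≤ b) (hab : p ^ 2 + q ^ 2 ≤ a * b) :
    (mat a b p q).PosSemidef := by
  apply Matrix.PosSemidef.of_dotProduct_mulVec_nonneg
  · apply Matrix.IsHermitian.ext
    intro i j
    fin_cases i <;> fin_cases j <;> simp [mat, sub_eq_add_neg]
  · intro x
    have h1 : star x ⬝ᵥ ((mat a b p q).mulVec x) =
        ((a * ((x 0).re * (x 0).re + (x 0).im * (x 0).im) +
          b * ((x 1).re * (x 1).re + (x 1).im * (x 1).im) +
          2 * (p * ((x 0).re * (x 1).re + (x 0).im * (x 1).im) -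
            q * ((x 0).re * (x 1).im - (x 0).im * (x 1).re)) : ℝ) : ℂ) := by
      simp only [mat, dotProduct, Matrix.mulVec, Fin.sum_univ_two, Pi.star_apply]
      apply Complex.ext
      · simp
        ring
      · simp
        ring
    rw [h1, Complex.zero_le_real]
    generalize (x 0).re = u
    generalize (x 0).im = v
    generalize (x 1).re = s
    generalize (x 1).im = t
    rcases ha.eq_or_lt with h0 | h0
    · rw [← h0] at hab ⊢
      have hp : p = 0 := by nlinarith [sq_nonneg p, sq_nonneg q]
      have hq : q = 0 := by nlinarith [sq_nonneg p, sq_nonneg q]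
      rw [hp, hq]
      have := mul_nonneg hb (add_nonneg (mul_self_nonneg s) (mul_self_nonneg t))
      linarith
    · have h2 : 0 ≤ a * (a * (u * u + v * v) + b * (s * s + t * t) +
          2 * (p * (u * s + v * t) - q * (u * t - v * s))) := by
        have h3 : a * (a * (u * u + v * v) + b * (s * s + t * t) +
            2 * (p * (u * s + v * t) - q * (u * t - v * s))) =
            (a * u + p * s - q * t) ^ 2 + (a * v + p * t + q * s) ^ 2 +
            (a * b - (p ^ 2 + q ^ 2)) * (s ^ 2 + t ^ 2) := by ring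
        rw [h3]
        have := mul_nonneg (sub_nonneg.2 hab) (add_nonneg (sq_nonneg s) (sq_nonneg t))
        positivity
      exact nonneg_of_mul_nonneg_right h2 h0

/-- Six variables: two pencils suffice. -/
theorem repr_six {f : MvPolynomial (Fin 6) ℝ} (hf : f.IsHomogeneous 2)
    (hst : ∀ z : Fin 6 → ℂ, (∀ k, 0 < (z k).im) → aeval z f ≠ 0)
    (h1 : 0 < MvPolynomial.eval 1 f) :
    ∃ A : Fin 2 → Fin 6 → Matrix (Fin 2) (Fin 2) ℂ, (∀ j k, (A j k).PosSemidef) ∧
      MvPolynomial.map (algebraMap ℝ ℂ) f = eta (fun j => pencil (A j)) := by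
  classical
  obtain ⟨S, a, b, p1, q1, p2, q2, hsum, hab, hin, hout⟩ := six hf hst h1
  refine ⟨![fun k => if k ∈ S then mat (a k) (b k) (p1 k) (q1 k) else 0,
    fun k => if k ∈ S then 0 else mat (a k) (b k) (p2 k) (q2 k)], ?_, ?_⟩
  · intro j k
    by_cases hk : k ∈ S
    · fin_cases j
      · show (if k ∈ S then mat (a k) (b k) (p1 k) (q1 k) else 0).PosSemidef
        rw [if_pos hk]
        exact mat_psd (hab k).1 (hab k).2 (hin k hk).2.2
      · show (if k ∈ S then 0 else mat (a k) (b k) (p2 k) (q2 k)).PosSemidef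
        rw [if_pos hk]
        exact Matrix.PosSemidef.zero
    · fin_cases j
      · show (if k ∈ S then mat (a k) (b k) (p1 k) (q1 k) else 0).PosSemidef
        rw [if_neg hk]
        exact Matrix.PosSemidef.zero
      · show (if k ∈ S then 0 else mat (a k) (b k) (p2 k) (q2 k)).PosSemidef
        rw [if_neg hk]
        exact mat_psd (hab k).1 (hab k).2 (hout k hk).2.2
  · rw [eta_two, Fin.sum_univ_two, Fin.sum_univ_two, Fin.sum_univ_two]
    have hlin : ∀ v : Fin 6 → ℝ, MvPolynomial.map (algebraMap ℝ ℂ) (lin v) =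
        lin (fun k => (v k : ℂ)) := by
      intro v
      rw [lin, lin, map_sum]
      apply Finset.sum_congr rfl
      intro k _
      rw [map_mul, map_C, map_X]
      rfl
    rw [hsum]
    simp only [map_sub, map_add, map_mul, map_pow, hlin]
    have e1 : pencil (fun k => if k ∈ S then mat (a k) (b k) (p1 k) (q1 k) else 0) 0 0 +
        pencil (fun k => if k ∈ S then 0 else mat (a k) (b k) (p2 k) (q2 k)) 0 0 =
        lin (fun k => (a k : ℂ)) := by
      rw [pencil, pencil, lin, ← Finset.sum_add_distrib]
      apply Finset.sum_congr rfl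
      intro k _
      by_cases hk : k ∈ S
      · simp [hk, mat]
      · simp [hk, mat]
    have e2 : pencil (fun k => if k ∈ S then mat (a k) (b k) (p1 k) (q1 k) else 0) 1 1 +
        pencil (fun k => if k ∈ S then 0 else mat (a k) (b k) (p2 k) (q2 k)) 1 1 =
        lin (fun k => (b k : ℂ)) := by
      rw [pencil, pencil, lin, ← Finset.sum_add_distrib]
      apply Finset.sum_congr rfl
      intro k _
      by_cases hk : k ∈ S
      · simp [hk, mat]
      · simp [hk, mat]
    have hI : (C Complex.I : MvPolynomial (Fin 6) ℂ) * C Complex.I = -1 := by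
      rw [← C_mul, Complex.I_mul_I, C_neg, C_1]
    have e3 : pencil (fun k => if k ∈ S then mat (a k) (b k) (p1 k) (q1 k) else 0) 0 1 =
        lin (fun k => (p1 k : ℂ)) + C Complex.I * lin (fun k => (q1 k : ℂ)) := by
      rw [pencil, lin, lin, Finset.mul_sum, ← Finset.sum_add_distrib]
      apply Finset.sum_congr rfl
      intro k _
      by_cases hk : k ∈ S
      · simp [hk, mat]
        ring
      · simp [hk, (hout k hk).1, (hout k hk).2.1]
    have e4 : pencil (fun k => if k ∈ S then mat (a k) (b k) (p1 k) (q1 k) else 0) 1 0 =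
        lin (fun k => (p1 k : ℂ)) - C Complex.I * lin (fun k => (q1 k : ℂ)) := by
      rw [pencil, lin, lin, Finset.mul_sum, ← Finset.sum_sub_distrib]
      apply Finset.sum_congr rfl
      intro k _
      by_cases hk : k ∈ S
      · simp [hk, mat]
        ring
      · simp [hk, (hout k hk).1, (hout k hk).2.1]
    have e5 : pencil (fun k => if k ∈ S then 0 else mat (a k) (b k) (p2 k) (q2 k)) 0 1 =
        lin (fun k => (p2 k : ℂ)) + C Complex.I * lin (fun k => (q2 k : ℂ)) := by
      rw [pencil, lin, lin, Finset.mul_sum, ← Finset.sum_add_distrib]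
      apply Finset.sum_congr rfl
      intro k _
      by_cases hk : k ∈ S
      · simp [hk, (hin k hk).1, (hin k hk).2.1]
      · simp [hk, mat]
        ring
    have e6 : pencil (fun k => if k ∈ S then 0 else mat (a k) (b k) (p2 k) (q2 k)) 1 0 =
        lin (fun k => (p2 k : ℂ)) - C Complex.I * lin (fun k => (q2 k : ℂ)) := by
      rw [pencil, lin, lin, Finset.mul_sum, ← Finset.sum_sub_distrib]
      apply Finset.sum_congr rfl
      intro k _
      by_cases hk : k ∈ S
      · simp [hk, (hin k hk).1, (hin k hk).2.1]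
      · simp [hk, mat]
        ring
    simp only [Matrix.cons_val_zero, Matrix.cons_val_one, e1, e2, e3, e4, e5, e6]
    linear_combination (-(lin (fun k => (q1 k : ℂ)) ^ 2 + lin (fun k => (q2 k : ℂ)) ^ 2)) * hI

end Pool.Agent.Y108.QE
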