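import Pool.Agent.Y108.QE.Split
import Pool.Agent.Y108.QE.Quad

/-!
# Real stable quadratic forms in six variables
-/

set_option autoImplicit false

namespace Pool.Agent.Y108.QE

open Module Finset MvPolynomial

/-- the linear form with given coefficients -/
noncomputable def lin {R : Type} [CommRing R] {l : ℕ} (v : Fin l → R) : MvPolynomial (Fin l) R :=
  ∑ k, C (v k) * X k

theorem eval_lin {l : ℕ} (g : (Fin l → ℝ) →ₗ[ℝ] ℝ) (x : Fin l → ℝ) :
    MvPolynomial.eval x (lin fun k => g (Pi.single k 1)) = g x := by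
  rw [lin, map_sum, LinearMap.pi_apply_eq_sum_univ g x]
  apply Finset.sum_congr rfl
  intro k _
  rw [map_mul, eval_C, eval_X, smul_eq_mul, mul_comm]
  congr 2
  funext j
  rw [Pi.single_apply]
  exact if_congr eq_comm rfl rfl

theorem six {f : MvPolynomial (Fin 6) ℝ} (hf : f.IsHomogeneous 2)
    (hst : ∀ z : Fin 6 → ℂ, (∀ k, 0 < (z k).im) → aeval z f ≠ 0)
    (h1 : 0 < MvPolynomial.eval 1 f) :
    ∃ (S : Finset (Fin 6)) (a b p1 q1 p2 q2 : Fin 6 → ℝ),
      f = lin a * lin b - (lin p1 ^ 2 + lin q1 ^ 2) - (lin p2 ^ 2 + lin q2 ^ 2) ∧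
      (∀ k, 0 ≤ a k ∧ 0 ≤ b k) ∧
      (∀ k ∈ S, p2 k = 0 ∧ q2 k = 0 ∧ p1 k ^ 2 + q1 k ^ 2 ≤ a k * b k) ∧
      (∀ k, k ∉ S → p1 k = 0 ∧ q1 k = 0 ∧ p2 k ^ 2 + q2 k ^ 2 ≤ a k * b k) := by
  obtain ⟨H, hH, hfH⟩ := exists_matrix hf
  rw [eval_bf hfH] at h1
  have hs := bf_symm hH
  have hnb : ∀ {x y : Fin 6 → ℝ}, (∀ k, 0 ≤ x k) → (∀ k, 0 ≤ y k) → 0 ≤ bf H x y :=
    fun hx hy => nonneg_bf hH hfH hst h1 hx hy
  have hee : ∀ k j : Fin 6, 0 ≤ ee k j := by
    intro k j
    show 0 ≤ (Pi.single k (1 : ℝ) : Fin 6 → ℝ) j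
    rw [Pi.single_apply]
    split_ifs
    · exact zero_le_one
    · exact le_refl _
  have hL1 := pos_lor hH hfH hst (fun _ => zero_lt_one) h1
  -- a positive entry
  obtain ⟨i, j, hij⟩ : ∃ i j, 0 < H i j := by
    by_contra hcon
    push Not at hcon
    rw [Matrix.toBilin'_apply] at h1
    have : ∑ i, ∑ j, (1 : Fin 6 → ℝ) i * H i j * (1 : Fin 6 → ℝ) j ≤ 0 := by
      apply Finset.sum_nonpos
      intro i _
      apply Finset.sum_nonpos
      intro j _
      simpa using hcon i j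
    linarith
  have hHe : ∀ i j, bf H (ee i) (ee j) = H i j := by
    intro i j
    exact Matrix.toBilin'_single H i j
  obtain ⟨S, hS', hS⟩ : ∃ S : Finset (Fin 6), {i, j} ⊆ S ∧ S.card = 4 :=
    Finset.exists_superset_card_eq (card_le_two.trans (by norm_num)) (by simp)
  have hiS : i ∈ S := hS' (mem_insert_self _ _)
  have hjS : j ∈ S := hS' (mem_insert_of_mem (mem_singleton_self _))
  have hmem : ∀ k ∈ S, ee k ∈ Sup S := by
    intro k hk j hj
    have : j ≠ k := fun h' => hj (h' ▸ hk)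
    exact Pi.single_eq_of_ne this _
  have he0 : 0 < bf H (ee i + ee j) (ee i + ee j) := by
    simp only [map_add, LinearMap.add_apply]
    rw [hs (ee j) (ee i), hHe i j]
    have := hnb (hee i) (hee i)
    have := hnb (hee j) (hee j)
    linarith
  obtain ⟨a, b, p1, q1, p2, q2, hsum, hab, hin, hout⟩ := split hs S hS
    (Submodule.add_mem _ (hmem i hiS) (hmem j hjS)) (lor_change hs hL1 he0)
    (fun k => hnb (hee k) (hee k)) (fun k => hnb (hee k) (fun l => add_nonneg (hee i l) (hee j l)))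
  refine ⟨S, fun k => a (Pi.single k 1), fun k => b (Pi.single k 1), fun k => p1 (Pi.single k 1),
    fun k => q1 (Pi.single k 1), fun k => p2 (Pi.single k 1), fun k => q2 (Pi.single k 1),
    ?_, hab, ?_, ?_⟩
  · apply MvPolynomial.funext
    intro x
    simp only [map_sub, map_add, map_mul, map_pow, eval_lin]
    rw [eval_bf hfH, hsum]
  · intro k hk
    obtain ⟨h2, h3⟩ := hin k hk
    refine ⟨h2, h3, ?_⟩
    have h4 := hsum (ee k)
    rw [h2, h3] at h4
    have h5 := hnb (hee k) (hee k)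
    linarith
  · intro k hk
    obtain ⟨h2, h3⟩ := hout k hk
    refine ⟨h2, h3, ?_⟩
    have h4 := hsum (ee k)
    rw [h2, h3] at h4
    have h5 := hnb (hee k) (hee k)
    linarith

end Pool.Agent.Y108.QE
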