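import Pool.Agent.Y108.QE.Plane

/-!
# Splitting of a form with one positive square in six variables
-/

set_option autoImplicit false

namespace Pool.Agent.Y108.QE

open Module Finset

/-- Two forms of small rank from a semidefinite form with many kernel relations. -/
theorem halves {N : LinearMap.BilinForm ℝ V6} (hNs : ∀ x y, N x y = N y x)
    (hNp : ∀ x, 0 ≤ N x x) (S : Finset (Fin 6)) (hS : S.card = 4) {k5 k6 : Fin 6} (h56 : k5 ≠ k6)
    (hk5 : k5 ∉ S) (hk6 : k6 ∉ S) {w h : V6} (hwE : w ∈ Sup S) (hhE : h ∈ Sup S)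
    (hind : ∀ s t : ℝ, s • w + t • h = 0 → s = 0 ∧ t = 0)
    (kw : w ∈ LinearMap.ker N) (kh : h ∈ LinearMap.ker N)
    (hx5 : ∀ x ∈ Sup S, N x (ee k5) = 0) (hx6 : ∀ x ∈ Sup S, N x (ee k6) = 0) :
    ∃ p1 q1 p2 q2 : V6 →ₗ[ℝ] ℝ,
      (∀ x, N x x = (p1 x ^ 2 + q1 x ^ 2) + (p2 x ^ 2 + q2 x ^ 2)) ∧
      (∀ k ∈ S, p2 (ee k) = 0 ∧ q2 (ee k) = 0) ∧
      (∀ k, k ∉ S → p1 (ee k) = 0 ∧ q1 (ee k) = 0) := by
  obtain ⟨N1, hN1⟩ : ∃ N1 : LinearMap.BilinForm ℝ V6, N1 = N.compl₁₂ (pr S) (pr S) := ⟨_, rfl⟩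
  obtain ⟨N2, hN2⟩ : ∃ N2 : LinearMap.BilinForm ℝ V6, N2 = N.compl₁₂ (pr Sᶜ) (pr Sᶜ) := ⟨_, rfl⟩
  have hN1x : ∀ x y, N1 x y = N (pr S x) (pr S y) := by
    intro x y
    rw [hN1]
    rfl
  have hN2x : ∀ x y, N2 x y = N (pr Sᶜ x) (pr Sᶜ y) := by
    intro x y
    rw [hN2]
    rfl
  have hN1s : ∀ x y, N1 x y = N1 y x := fun x y => by rw [hN1x, hN1x, hNs]
  have hN2s : ∀ x y, N2 x y = N2 y x := fun x y => by rw [hN2x, hN2x, hNs]
  have hN1p : ∀ x, 0 ≤ N1 x x := fun x => by rw [hN1x]; exact hNp _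
  have hN2p : ∀ x, 0 ≤ N2 x x := fun x => by rw [hN2x]; exact hNp _
  have hfin : finrank ℝ V6 = 6 := Module.finrank_fin_fun ℝ
  have hz1 : ∀ x, pr S x = 0 → x ∈ LinearMap.ker N1 := by
    intro x hx
    rw [LinearMap.mem_ker]
    refine LinearMap.ext fun y => ?_
    rw [hN1x, hx, map_zero]
    rfl
  have hz1' : ∀ x ∈ Sup S, x ∈ LinearMap.ker N → x ∈ LinearMap.ker N1 := by
    intro x hx hx'
    rw [LinearMap.mem_ker] at hx' ⊢
    refine LinearMap.ext fun y => ?_
    rw [hN1x, pr_self hx, hx']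
    rfl
  have hz2 : ∀ x, pr Sᶜ x = 0 → x ∈ LinearMap.ker N2 := by
    intro x hx
    rw [LinearMap.mem_ker]
    refine LinearMap.ext fun y => ?_
    rw [hN2x, hx, map_zero]
    rfl
  have d1 : 4 ≤ finrank ℝ (LinearMap.ker N1) := by
    apply four_le ![ee k5, ee k6, w, h]
    · rw [Fintype.linearIndependent_iff]
      intro g hg
      rw [Fin.sum_univ_four] at hg
      have hg' : g 0 • ee k5 + g 1 • ee k6 + g 2 • w + g 3 • h = 0 := hg
      have e1 : g 0 = 0 := by
        have := congrFun hg' k5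
        simp only [Pi.add_apply, Pi.smul_apply, Pi.zero_apply, smul_eq_mul, hwE k5 hk5,
          hhE k5 hk5, ee, Pi.single_eq_same, Pi.single_eq_of_ne h56] at this
        linarith
      have e2 : g 1 = 0 := by
        have := congrFun hg' k6
        simp only [Pi.add_apply, Pi.smul_apply, Pi.zero_apply, smul_eq_mul, hwE k6 hk6,
          hhE k6 hk6, ee, Pi.single_eq_same, Pi.single_eq_of_ne h56.symm] at this
        linarith
      rw [e1, e2, zero_smul, zero_smul, zero_add, zero_add] at hg'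
      obtain ⟨e3, e4⟩ := hind _ _ hg'
      intro i
      fin_cases i
      · exact e1
      · exact e2
      · exact e3
      · exact e4
    · intro i
      fin_cases i
      · exact hz1 _ (pr_ee hk5)
      · exact hz1 _ (pr_ee hk6)
      · exact hz1' _ hwE kw
      · exact hz1' _ hhE kh
  have d2 : 4 ≤ finrank ℝ (LinearMap.ker N2) := by
    have hb : ∀ k ∈ S, ee k ∈ LinearMap.ker N2 := by
      intro k hk
      apply hz2
      apply pr_ee
      intro h
      rw [mem_compl] at h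
      exact h hk
    apply four_le (fun i => ee (S.orderEmbOfFin hS i))
    · have h1 := (Pi.basisFun ℝ (Fin 6)).linearIndependent.comp _
        (S.orderEmbOfFin hS).injective
      have h2 : (fun i => ee (S.orderEmbOfFin hS i)) =
          (Pi.basisFun ℝ (Fin 6)) ∘ (S.orderEmbOfFin hS) := by
        funext i
        rw [Function.comp_apply, Pi.basisFun_apply]
      rw [h2]
      exact h1
    · intro i
      exact hb _ (S.orderEmbOfFin_mem hS i)
  obtain ⟨p1, q1, hpq1⟩ := psd_two hN1s hN1p (by rw [hfin]; omega)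
  obtain ⟨p2, q2, hpq2⟩ := psd_two hN2s hN2p (by rw [hfin]; omega)
  refine ⟨p1, q1, p2, q2, ?_, ?_, ?_⟩
  · intro x
    have hcr : ∀ x, N (pr S x) (pr Sᶜ x) = 0 := by
      intro x
      have h1 : pr Sᶜ x = x k5 • ee k5 + x k6 • ee k6 := by
        have hSc : Sᶜ = {k5, k6} := by
          symm
          apply Finset.eq_of_subset_of_card_le
          · intro j hj
            rw [mem_insert, mem_singleton] at hj
            rw [mem_compl]
            rcases hj with rfl | rfl
            · exact hk5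
            · exact hk6
          · rw [card_compl, Fintype.card_fin, hS, card_pair h56]
        funext j
        rw [pr_apply, hSc]
        simp only [Pi.add_apply, Pi.smul_apply, smul_eq_mul, ee, Pi.single_apply, mem_insert,
          mem_singleton]
        by_cases hj5 : j = k5
        · subst hj5
          rw [if_pos (Or.inl rfl), if_pos rfl, if_neg h56]
          ring
        · by_cases hj6 : j = k6
          · subst hj6
            rw [if_pos (Or.inr rfl), if_neg hj5, if_pos rfl]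
            ring
          · rw [if_neg (by rintro (h | h); exacts [hj5 h, hj6 h]), if_neg hj5, if_neg hj6]
            ring
      rw [h1, map_add, map_smul, map_smul, hx5 _ (pr_mem S x), hx6 _ (pr_mem S x)]
      simp
    have h2 : N x x = N (pr S x) (pr S x) + N (pr Sᶜ x) (pr Sᶜ x) := by
      conv_lhs => rw [pr_add S x]
      rw [map_add, map_add, LinearMap.add_apply, LinearMap.add_apply, hcr x,
        hNs (pr Sᶜ x) (pr S x), hcr x]
      ring
    rw [h2, ← hN1x, ← hN2x, hpq1, hpq2]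
  · intro k hk
    have h1 : N2 (ee k) (ee k) = 0 := by
      rw [hN2x, pr_ee (by rw [mem_compl]; exact fun h => h hk), map_zero]
    rw [hpq2] at h1
    have h3 := sq_nonneg (p2 (ee k))
    have h4 := sq_nonneg (q2 (ee k))
    exact ⟨pow_eq_zero_iff two_ne_zero |>.1 (by linarith),
      pow_eq_zero_iff two_ne_zero |>.1 (by linarith)⟩
  · intro k hk
    have h1 : N1 (ee k) (ee k) = 0 := by
      rw [hN1x, pr_ee hk, map_zero]
    rw [hpq1] at h1
    have h3 := sq_nonneg (p1 (ee k))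
    have h4 := sq_nonneg (q1 (ee k))
    exact ⟨pow_eq_zero_iff two_ne_zero |>.1 (by linarith),
      pow_eq_zero_iff two_ne_zero |>.1 (by linarith)⟩

theorem split {B : LinearMap.BilinForm ℝ V6} (hs : ∀ x y, B x y = B y x) (S : Finset (Fin 6))
    (hS : S.card = 4) {e : V6} (heS : e ∈ Sup S) (he : Lor B e)
    (hnn : ∀ k, 0 ≤ B (ee k) (ee k)) (hne : ∀ k, 0 ≤ B (ee k) e) :
    ∃ a b p1 q1 p2 q2 : V6 →ₗ[ℝ] ℝ,
      (∀ x, B x x = a x * b x - (p1 x ^ 2 + q1 x ^ 2) - (p2 x ^ 2 + q2 x ^ 2)) ∧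
      (∀ k, 0 ≤ a (ee k) ∧ 0 ≤ b (ee k)) ∧ (∀ k ∈ S, p2 (ee k) = 0 ∧ q2 (ee k) = 0) ∧
      (∀ k, k ∉ S → p1 (ee k) = 0 ∧ q1 (ee k) = 0) := by
  classical
  have hSc : Sᶜ.card = 2 := by
    rw [card_compl, Fintype.card_fin, hS]
  obtain ⟨k5, k6, h56, hSc'⟩ := card_eq_two.1 hSc
  have hk5 : k5 ∉ S := by
    have : k5 ∈ Sᶜ := by rw [hSc']; exact mem_insert_self _ _
    exact mem_compl.1 this
  have hk6 : k6 ∉ S := by
    have : k6 ∈ Sᶜ := by rw [hSc']; exact mem_insert_of_mem (mem_singleton_self _)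
    exact mem_compl.1 this
  obtain ⟨i0, hi0, j0, hj0, hij0⟩ : ∃ i ∈ S, ∃ j ∈ S, i ≠ j := by
    have : 1 < S.card := by omega
    obtain ⟨i, hi, j, hj, hij⟩ := one_lt_card.1 this
    exact ⟨i, hi, j, hj, hij⟩
  have hfw := fwd hs S heS he hnn hne
  obtain ⟨u5, hu5E, hu5p, hu5e, hu5⟩ := hfw k5
  obtain ⟨u6, hu6E, hu6p, hu6e, hu6⟩ := hfw k6
  obtain ⟨w, hwE, h, hhE, hww, hind, hfwd, r5, r6, hr5, hr6, hm5, hm6⟩ :=
    plane hs S hi0 hj0 hij0 heS he hnn hne hu5E hu5p hu5e hu6E hu6p hu6e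
  have hw := lor_change hs he hww
  obtain ⟨p, hp, q, hq, hle, hNw, hNh, hpos⟩ := lor_plane hs hw h
  have hspan : Submodule.span ℝ {w, h} ≤ Sup S := by
    rw [Submodule.span_le]
    intro x hx
    rcases hx with rfl | hx
    · exact hwE
    · rw [Set.mem_singleton_iff] at hx
      rw [hx]
      exact hhE
  have hpE := hspan hp
  have hqE := hspan hq
  obtain ⟨N, hN⟩ : ∃ N : LinearMap.BilinForm ℝ V6,
      N = (1 / 2 : ℝ) • ((B p).smulRight (B q) + (B q).smulRight (B p)) - B := ⟨_, rfl⟩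
  have hNx : ∀ x y, N x y = (B p x * B q y + B q x * B p y) / 2 - B x y := by
    intro x y
    rw [hN]
    simp only [LinearMap.sub_apply, LinearMap.smul_apply, LinearMap.add_apply,
      LinearMap.smulRight_apply, smul_eq_mul]
    ring
  have hNs : ∀ x y, N x y = N y x := by
    intro x y
    rw [hNx, hNx, hs x y]
    ring
  have hNp : ∀ x, 0 ≤ N x x := by
    intro x
    rw [hNx]
    have := hle x
    rw [hs x p, hs x q] at this
    linarith
  have kw : w ∈ LinearMap.ker N := by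
    rw [LinearMap.mem_ker]
    apply psd_rad hNs hNp
    rw [hNx, hNw, hs w p, hs w q]
    ring
  have kh : h ∈ LinearMap.ker N := by
    rw [LinearMap.mem_ker]
    apply psd_rad hNs hNp
    rw [hNx, hNh, hs h p, hs h q]
    ring
  have kspan : Submodule.span ℝ {w, h} ≤ LinearMap.ker N := by
    rw [Submodule.span_le]
    intro x hx
    rcases hx with rfl | hx
    · exact kw
    · rw [Set.mem_singleton_iff] at hx
      rw [hx]
      exact kh
  have krad : ∀ r : V6, (∀ y, B r y = 0) → r ∈ LinearMap.ker N := by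
    intro r hr
    rw [LinearMap.mem_ker]
    apply psd_rad hNs hNp
    rw [hNx, hs p r, hs q r, hr, hr, hr]
    ring
  have ku5 : u5 ∈ LinearMap.ker N := by
    have h1 := Submodule.add_mem _ (kspan hm5) (krad r5 hr5)
    rwa [sub_add_cancel] at h1
  have ku6 : u6 ∈ LinearMap.ker N := by
    have h1 := Submodule.add_mem _ (kspan hm6) (krad r6 hr6)
    rwa [sub_add_cancel] at h1
  have cross : ∀ k u, u ∈ LinearMap.ker N → (∀ x ∈ Sup S, B (ee k) x = B u x) →
      ∀ x ∈ Sup S, N x (ee k) = 0 := by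
    intro k u hu hku x hx
    have h1 : N x u = 0 := by
      rw [hNs]
      rw [LinearMap.mem_ker] at hu
      rw [hu]
      rfl
    rw [hNx] at h1 ⊢
    rw [hs q (ee k), hs p (ee k), hs x (ee k), hku q hqE, hku p hpE, hku x hx]
    rw [hs q u, hs p u, hs x u] at h1
    exact h1
  obtain ⟨p1, q1, p2, q2, hN12, h2, h1⟩ := halves hNs hNp S hS h56 hk5 hk6 hwE hhE hind kw kh
    (cross k5 u5 ku5 hu5) (cross k6 u6 ku6 hu6)
  refine ⟨B p, B q, p1, q1, p2, q2, ?_, ?_, h2, h1⟩
  · intro x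
    have h3 := hN12 x
    rw [hNx] at h3
    linarith
  · intro k
    have h3 := hpos (ee k) (hnn k) (hfwd k)
    rw [hs p, hs q]
    exact h3

end Pool.Agent.Y108.QE
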