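import Pool.Agent.Y108.QE.Lor

/-!
# Splitting of a form with one positive square in six variables
-/

set_option autoImplicit false

namespace Pool.Agent.Y108.QE

open Module Finset

/-- six coordinates -/
abbrev V6 : Type := Fin 6 → ℝ

/-- the unit vectors -/
abbrev ee (k : Fin 6) : V6 := Pi.single k (1 : ℝ)

/-- vectors with support in `S` -/
def Sup (S : Finset (Fin 6)) : Submodule ℝ V6 where
  carrier := {x | ∀ k, k ∉ S → x k = 0}
  add_mem' := by
    intro a b ha hb k hk
    show a k + b k = 0
    rw [ha k hk, hb k hk, add_zero]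
  zero_mem' := fun k _ => rfl
  smul_mem' := by
    intro c x hx k hk
    show c * x k = 0
    rw [hx k hk, mul_zero]

theorem mem_Sup {S : Finset (Fin 6)} {x : V6} : x ∈ Sup S ↔ ∀ k, k ∉ S → x k = 0 := Iff.rfl

/-- restriction of a vector to `S` -/
def pr (S : Finset (Fin 6)) : V6 →ₗ[ℝ] V6 where
  toFun x := fun k => if k ∈ S then x k else 0
  map_add' := by
    intro x y
    funext k
    by_cases h : k ∈ S <;> simp [h]
  map_smul' := by
    intro c x
    funext k
    by_cases h : k ∈ S <;> simp [h]

theorem pr_apply (S : Finset (Fin 6)) (x : V6) (k : Fin 6) :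
    pr S x k = if k ∈ S then x k else 0 := rfl

theorem pr_mem (S : Finset (Fin 6)) (x : V6) : pr S x ∈ Sup S := by
  intro k hk
  rw [pr_apply, if_neg hk]

theorem pr_self {S : Finset (Fin 6)} {x : V6} (hx : x ∈ Sup S) : pr S x = x := by
  funext k
  rw [pr_apply]
  split_ifs with h
  · rfl
  · exact (hx k h).symm

theorem pr_ee {S : Finset (Fin 6)} {k : Fin 6} (hk : k ∉ S) : pr S (ee k) = 0 := by
  funext l
  rw [pr_apply]
  split_ifs with h
  · have : l ≠ k := fun h' => hk (h' ▸ h)
    simp [ee, Pi.single_apply, this]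
  · rfl

theorem pr_add (S : Finset (Fin 6)) (x : V6) : x = pr S x + pr Sᶜ x := by
  funext k
  show x k = pr S x k + pr Sᶜ x k
  rw [pr_apply, pr_apply]
  by_cases h : k ∈ S
  · rw [if_pos h, if_neg (by simpa using h), add_zero]
  · rw [if_neg h, if_pos (by simpa using h), zero_add]

theorem four_le {K : Submodule ℝ V6} (v : Fin 4 → V6) (hv : LinearIndependent ℝ v)
    (hK : ∀ i, v i ∈ K) : 4 ≤ finrank ℝ K := by
  have h1 : Submodule.span ℝ (Set.range v) ≤ K := by
    rw [Submodule.span_le]
    rintro _ ⟨i, rfl⟩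
    exact hK i
  have h2 := Submodule.finrank_mono h1
  rw [finrank_span_eq_card hv, Fintype.card_fin] at h2
  exact h2

theorem pick {S : Finset (Fin 6)} {k l : Fin 6} (hk : k ∈ S) (hl : l ∈ S) (hkl : k ≠ l) {w v : V6}
    (hw0 : w ≠ 0) (hv : v ∈ Sup S) : ∃ h ∈ Sup S,
      (∀ s t : ℝ, s • w + t • h = 0 → s = 0 ∧ t = 0) ∧ v ∈ Submodule.span ℝ {w, h} := by
  have hind : ∀ h : V6, h ∉ Submodule.span ℝ {w} →
      ∀ s t : ℝ, s • w + t • h = 0 → s = 0 ∧ t = 0 := by
    intro h hh s t hst
    have ht : t = 0 := by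
      by_contra ht
      apply hh
      rw [Submodule.mem_span_singleton]
      refine ⟨-(t⁻¹ * s), ?_⟩
      have h1 : t • h = -(s • w) := by
        rw [eq_neg_iff_add_eq_zero, add_comm]
        exact hst
      calc (-(t⁻¹ * s)) • w = t⁻¹ • (-(s • w)) := by rw [neg_smul, smul_neg, mul_smul]
        _ = t⁻¹ • (t • h) := by rw [h1]
        _ = h := by rw [smul_smul, inv_mul_cancel₀ ht, one_smul]
    rw [ht, zero_smul, add_zero] at hst
    exact ⟨(smul_eq_zero.1 hst).resolve_right hw0, ht⟩
  by_cases hvw : v ∈ Submodule.span ℝ {w}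
  · have hex : ∃ h ∈ Sup S, h ∉ Submodule.span ℝ {w} := by
      by_contra hcon
      push Not at hcon
      have hek : ee k ∈ Sup S := by
        intro j hj
        have : j ≠ k := fun h' => hj (h' ▸ hk)
        simp [ee, Pi.single_apply, this]
      have hel : ee l ∈ Sup S := by
        intro j hj
        have : j ≠ l := fun h' => hj (h' ▸ hl)
        simp [ee, Pi.single_apply, this]
      obtain ⟨a, ha⟩ := Submodule.mem_span_singleton.1 (hcon _ hek)
      obtain ⟨b, hb⟩ := Submodule.mem_span_singleton.1 (hcon _ hel)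
      have h1 : a * w l = 0 := by
        have := congrFun ha l
        simpa [ee, Pi.single_apply, hkl.symm] using this
      have h2 : a * w k = 1 := by
        have := congrFun ha k
        simpa [ee] using this
      have h3 : b * w l = 1 := by
        have := congrFun hb l
        simpa [ee] using this
      have ha0 : a ≠ 0 := by
        rintro rfl
        simp at h2
      have hwl : w l = 0 := (mul_eq_zero.1 h1).resolve_left ha0
      rw [hwl, mul_zero] at h3
      exact zero_ne_one h3
    obtain ⟨h, hhS, hh⟩ := hex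
    refine ⟨h, hhS, hind h hh, ?_⟩
    exact Submodule.span_mono (by simp) hvw
  · exact ⟨v, hv, hind v hvw, Submodule.subset_span (by simp)⟩


end Pool.Agent.Y108.QE
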